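import Mathlib

set_option autoImplicit false

open MeasureTheory Set Filter Topology intervalIntegral

namespace Pool.Agent.X304.Brannan

/-- the weight `t^(1-b) (1-t)^b` -/
noncomputable def g (b t : ℝ) : ℝ := t ^ (1 - b) * (1 - t) ^ b

variable {b : ℝ}

theorem g_continuous (h0 : 0 < b) (h1 : b < 1) : Continuous (g b) := by
  unfold g
  exact (Continuous.rpow_const continuous_id (fun _ => Or.inr (by linarith))).mul
    (Continuous.rpow_const (by fun_prop) (fun _ => Or.inr h0.le))

theorem g_nonneg {t : ℝ} (ht : t ∈ Icc (0 : ℝ) 1) : 0 ≤ g b t :=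
  mul_nonneg (Real.rpow_nonneg ht.1 _) (Real.rpow_nonneg (by linarith [ht.2]) _)

theorem g_zero (h1 : b < 1) : g b 0 = 0 := by
  simp [g, Real.zero_rpow (by linarith : (1 - b) ≠ 0)]

theorem g_one (h0 : 0 < b) : g b 1 = 0 := by
  simp [g, Real.zero_rpow h0.ne']

theorem g_pos {t : ℝ} (ht : t ∈ Ioo (0 : ℝ) 1) : 0 < g b t :=
  mul_pos (Real.rpow_pos_of_pos ht.1 _) (Real.rpow_pos_of_pos (by linarith [ht.2]) _)

theorem g_hasDerivAt {t : ℝ} (ht : t ∈ Ioo (0 : ℝ) 1) :
    HasDerivAt (g b) (g b t * ((1 - b) / t - b / (1 - t))) t := by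
  have ht0 : t ≠ 0 := ht.1.ne'
  have ht1 : (1 - t) ≠ 0 := by linarith [ht.2] |> fun h : 0 < 1 - t => h.ne'
  have e1 : HasDerivAt (fun t : ℝ => t ^ (1 - b)) ((1 - b) * t ^ (1 - b - 1)) t := by
    simpa using Real.hasDerivAt_rpow_const (x := t) (p := 1 - b) (Or.inl ht0)
  have e2 : HasDerivAt (fun t : ℝ => (1 - t) ^ b) (-1 * b * (1 - t) ^ (b - 1)) t :=
    ((hasDerivAt_id t).const_sub 1).rpow_const (Or.inl ht1)
  have e := e1.mul e2
  have r1 : t ^ (1 - b - 1) = t ^ (1 - b) / t := Real.rpow_sub_one ht0 _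
  have r2 : (1 - t) ^ (b - 1) = (1 - t) ^ b / (1 - t) := Real.rpow_sub_one ht1 _
  refine e.congr_deriv ?_
  rw [r1, r2, g]
  field_simp
  ring

/-- moments of the weight -/
noncomputable def M (b : ℝ) (k : ℕ) : ℝ := ∫ t in (0 : ℝ)..1, t ^ k * g b t

theorem M_pos (h0 : 0 < b) (h1 : b < 1) (k : ℕ) : 0 < M b k := by
  unfold M
  apply intervalIntegral_pos_of_pos_on
  · exact (((continuous_id.pow k).mul (g_continuous h0 h1)).intervalIntegrable _ _)
  · intro t ht
    exact mul_pos (pow_pos ht.1 _) (g_pos ht)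
  · norm_num

theorem M_succ (h0 : 0 < b) (h1 : b < 1) (k : ℕ) :
    M b (k + 1) = (k + 2 - b) / (k + 3) * M b k := by
  have hc := g_continuous h0 h1
  have key : ∫ t in (0 : ℝ)..1, t ^ k * g b t * ((k + 2 - b) - (k + 3) * t) = 0 := by
    have := integral_eq_sub_of_hasDerivAt_of_le (a := 0) (b := 1)
      (f := fun t : ℝ => t ^ (k + 1) * (1 - t) * g b t)
      (f' := fun t : ℝ => t ^ k * g b t * ((k + 2 - b) - (k + 3) * t)) zero_le_one
      (by fun_prop) ?_ (Continuous.intervalIntegrable (by fun_prop) _ _)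
    · rw [this]; simp
    · intro t ht
      have ht0 : t ≠ 0 := ht.1.ne'
      have ht1 : (1 - t) ≠ 0 := (by linarith [ht.2] : (0 : ℝ) < 1 - t).ne'
      have e := ((hasDerivAt_pow (k + 1) t).mul ((hasDerivAt_id t).const_sub 1)).mul
        (g_hasDerivAt (b := b) ht)
      refine e.congr_deriv ?_
      simp only [id, Pi.mul_apply]
      push_cast
      rw [pow_succ]
      field_simp
      ring
  have e1 : ∫ t in (0 : ℝ)..1, t ^ k * g b t * ((k + 2 - b) - (k + 3) * t) =
      (k + 2 - b) * M b k - (k + 3) * M b (k + 1) := by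
    unfold M
    rw [← intervalIntegral.integral_const_mul, ← intervalIntegral.integral_const_mul, ← intervalIntegral.integral_sub]
    · apply integral_congr
      intro t _
      simp only [pow_succ]
      ring
    · exact Continuous.intervalIntegrable (by fun_prop) _ _
    · exact Continuous.intervalIntegrable (by fun_prop) _ _
  rw [e1] at key
  have h3 : ((k : ℝ) + 3) ≠ 0 := by positivity
  field_simp
  linarith

theorem h_integrable (h0 : 0 < b) (h1 : b < 1) :
    IntervalIntegrable (fun t : ℝ => t ^ (-b) * (1 - t) ^ b) volume 0 1 := by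
  apply IntervalIntegrable.mul_continuousOn
  · exact intervalIntegrable_rpow' (by linarith)
  · exact (Continuous.rpow_const (by fun_prop) (fun _ => Or.inr h0.le)).continuousOn

theorem M_zero_ge (h0 : 0 < b) (h1 : b < 1) : (1 - b) / 2 ≤ M b 0 := by
  have hc := g_continuous h0 h1
  have hi := h_integrable h0 h1
  set h : ℝ → ℝ := fun t : ℝ => t ^ (-b) * (1 - t) ^ b with hh
  -- first the integral of `h` is at least one
  have hi' : IntervalIntegrable (fun t => h (1 - t)) volume 0 1 := by
    have := hi.comp_sub_left 1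
    simpa using this.symm
  have hsymm : ∫ t in (0 : ℝ)..1, h (1 - t) = ∫ t in (0 : ℝ)..1, h t := by
    have := integral_comp_sub_left (a := 0) (b := 1) h 1
    simpa using this
  have hge : (2 : ℝ) ≤ 2 * ∫ t in (0 : ℝ)..1, h t := by
    have e : 2 * ∫ t in (0 : ℝ)..1, h t = ∫ t in (0 : ℝ)..1, (h t + h (1 - t)) := by
      rw [intervalIntegral.integral_add hi hi', hsymm]; ring
    have e2 : (2 : ℝ) = ∫ t in (0 : ℝ)..1, (2 : ℝ) := by simp
    rw [e]
    conv_lhs => rw [e2]
    apply integral_mono_on_of_le_Ioo zero_le_one (by simp) (hi.add hi')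
    intro t ht
    have ht1 : (0 : ℝ) < 1 - t := by linarith [ht.2]
    have p1 : 0 < t ^ b := Real.rpow_pos_of_pos ht.1 _
    have p2 : 0 < (1 - t) ^ b := Real.rpow_pos_of_pos ht1 _
    simp only [hh, sub_sub_cancel]
    rw [Real.rpow_neg ht.1.le, Real.rpow_neg ht1.le]
    set u := t ^ b
    set v := (1 - t) ^ b
    have : u⁻¹ * v + v⁻¹ * u - 2 = (u - v) ^ 2 / (u * v) := by
      field_simp
      ring
    have h2 : 0 ≤ (u - v) ^ 2 / (u * v) := by positivity
    linarith
  -- integrate the derivative of `(1-t) g(t)`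
  have key : ∫ t in (0 : ℝ)..1, ((1 - b) * h t - 2 * g b t) = 0 := by
    have := integral_eq_sub_of_hasDerivAt_of_le (a := 0) (b := 1)
      (f := fun t : ℝ => (1 - t) * g b t)
      (f' := fun t : ℝ => (1 - b) * h t - 2 * g b t) zero_le_one
      (by fun_prop) ?_ ((hi.const_mul _).sub (Continuous.intervalIntegrable (by fun_prop) _ _))
    · rw [this]; simp [g_zero h1]
    · intro t ht
      have ht0 : t ≠ 0 := ht.1.ne'
      have ht1 : (1 - t) ≠ 0 := (by linarith [ht.2] : (0 : ℝ) < 1 - t).ne'
      have e := ((hasDerivAt_id t).const_sub 1).mul (g_hasDerivAt (b := b) ht)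
      refine e.congr_deriv ?_
      have hg : g b t = t * h t := by
        simp only [g, hh]
        rw [show (1 - b) = 1 + (-b) by ring, Real.rpow_add ht.1, Real.rpow_one]
        ring
      simp only [id]
      rw [hg]
      field_simp
      ring
  rw [intervalIntegral.integral_sub (hi.const_mul _) (Continuous.intervalIntegrable (by fun_prop) _ _),
    intervalIntegral.integral_const_mul, intervalIntegral.integral_const_mul] at key
  have hM : M b 0 = ∫ t in (0 : ℝ)..1, g b t := by simp [M]
  rw [hM]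
  nlinarith

/-- the normalising constant -/
noncomputable def cst (b : ℝ) : ℝ := b * (1 - b) / (2 * M b 0)

theorem cst_pos (h0 : 0 < b) (h1 : b < 1) : 0 < cst b := by
  have := M_pos h0 h1 0
  have h2 : 0 < 1 - b := by linarith
  unfold cst
  positivity

theorem cst_le (h0 : 0 < b) (h1 : b < 1) : cst b ≤ b := by
  have h := M_pos h0 h1 0
  have h2 := M_zero_ge h0 h1
  unfold cst
  rw [div_le_iff₀ (by positivity)]
  nlinarith

/-- binomial coefficients as in the frozen statement -/
noncomputable def bin (a : ℝ) (k : ℕ) : ℝ := (∏ j ∈ Finset.range k, (a - (j : ℝ))) / (k.factorial : ℝ)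

theorem bin_succ (a : ℝ) (k : ℕ) : bin a (k + 1) = bin a k * (a - k) / (k + 1) := by
  unfold bin
  rw [Finset.prod_range_succ, Nat.factorial_succ]
  push_cast
  field_simp

theorem bin_zero (a : ℝ) : bin a 0 = 1 := by simp [bin]

theorem bin_one (a : ℝ) : bin a 1 = a := by simp [bin]

theorem bin_add_two (h0 : 0 < b) (h1 : b < 1) (k : ℕ) :
    bin b (k + 2) = (-1) ^ (k + 1) * (cst b * M b k) := by
  have hM := (M_pos h0 h1 0).ne'
  induction k with
  | zero =>
    rw [bin_succ, bin_one]
    unfold cst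
    push_cast
    field_simp
    ring
  | succ k ih =>
    rw [show k + 1 + 2 = (k + 2) + 1 by ring, bin_succ, ih, M_succ h0 h1]
    have h3 : ((k : ℝ) + 3) ≠ 0 := by positivity
    push_cast
    field_simp
    ring

end Pool.Agent.X304.Brannan
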