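import Mathlib
import Pool.Agent.X304.Brannan.Moments

set_option autoImplicit false

open MeasureTheory Set Filter Topology

namespace Pool.Agent.X304.Brannan

variable {b : ℝ}

/-- partial sums of the binomial series -/
noncomputable def S (a : ℝ) (m : ℕ) (x : ℂ) : ℂ :=
  ∑ k ∈ Finset.range (m + 1), (bin a k : ℂ) * x ^ k

/-- remainder integrals -/
noncomputable def R (b : ℝ) (n : ℕ) (x : ℂ) : ℂ :=
  ∫ t in (0 : ℝ)..1, (-(x * t)) ^ n / (1 + x * t) * (g b t : ℂ)

theorem den_continuous {x : ℂ} (hx : ∀ t ∈ Icc (0 : ℝ) 1, 1 + x * (t : ℂ) ≠ 0) (n : ℕ)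
    (h0 : 0 < b) (h1 : b < 1) :
    ContinuousOn (fun t : ℝ => (-(x * t)) ^ n / (1 + x * t) * (g b t : ℂ)) (Icc 0 1) := by
  have hc := g_continuous h0 h1
  apply ContinuousOn.mul
  · apply ContinuousOn.div
    · fun_prop
    · fun_prop
    · exact hx
  · exact (Complex.continuous_ofReal.comp hc).continuousOn

theorem den_integrable {x : ℂ} (hx : ∀ t ∈ Icc (0 : ℝ) 1, 1 + x * (t : ℂ) ≠ 0) (n : ℕ)
    (h0 : 0 < b) (h1 : b < 1) :
    IntervalIntegrable (fun t : ℝ => (-(x * t)) ^ n / (1 + x * t) * (g b t : ℂ)) volume 0 1 := by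
  apply ContinuousOn.intervalIntegrable
  rw [uIcc_of_le zero_le_one]
  exact den_continuous hx n h0 h1

theorem R_succ {x : ℂ} (hx : ∀ t ∈ Icc (0 : ℝ) 1, 1 + x * (t : ℂ) ≠ 0) (n : ℕ)
    (h0 : 0 < b) (h1 : b < 1) :
    R b (n + 1) x = R b n x - (-x) ^ n * (M b n : ℂ) := by
  have hc := g_continuous h0 h1
  unfold R M
  rw [← intervalIntegral.integral_ofReal, ← intervalIntegral.integral_const_mul,
    ← intervalIntegral.integral_sub (den_integrable hx n h0 h1)]
  · apply intervalIntegral.integral_congr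
    intro t ht
    rw [uIcc_of_le zero_le_one] at ht
    have := hx t ht
    push_cast
    field_simp
    ring
  · apply Continuous.intervalIntegrable
    fun_prop

/-- the closed form of the full series -/
noncomputable def G (b : ℝ) (x : ℂ) : ℂ := 1 + b * x - cst b * x ^ 2 * R b 0 x

theorem S_eq {x : ℂ} (hx : ∀ t ∈ Icc (0 : ℝ) 1, 1 + x * (t : ℂ) ≠ 0) (n : ℕ)
    (h0 : 0 < b) (h1 : b < 1) :
    S b (n + 1) x = G b x + cst b * x ^ 2 * R b n x := by
  induction n with
  | zero =>
    simp [S, G, Finset.sum_range_succ, bin_zero, bin_one]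
  | succ n ih =>
    have e : S b (n + 1 + 1) x = S b (n + 1) x + (bin b (n + 2) : ℂ) * x ^ (n + 2) := by
      unfold S
      rw [Finset.sum_range_succ (n := n + 1 + 1)]
    rw [e, ih, R_succ hx n h0 h1, bin_add_two h0 h1]
    push_cast
    ring

theorem choose_eq_bin (a : ℝ) (k : ℕ) : Ring.choose (a : ℂ) k = (bin a k : ℂ) := by
  have h := Ring.descPochhammer_eq_factorial_smul_choose (R := ℂ) (a : ℂ) k
  have h2 : ∀ k : ℕ, (descPochhammer ℤ k).smeval (a : ℂ) = ∏ j ∈ Finset.range k, ((a : ℂ) - j) := by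
    intro k
    induction k with
    | zero => simp
    | succ k ih =>
      rw [descPochhammer_succ_right, Polynomial.smeval_mul, ih, Finset.prod_range_succ]
      simp [Polynomial.smeval_natCast]
  rw [h2, nsmul_eq_mul] at h
  unfold bin
  push_cast
  rw [h]
  have : (k.factorial : ℂ) ≠ 0 := by exact_mod_cast Nat.factorial_ne_zero k
  field_simp

theorem S_tendsto (a : ℝ) {z : ℂ} (hz : ‖z‖ < 1) :
    Tendsto (fun n => S a (n + 1) z) atTop (𝓝 ((1 + z) ^ (a : ℂ))) := by
  have h := (Complex.one_add_cpow_hasFPowerSeriesOnBall_zero (a := (a : ℂ))).hasSum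
    (y := z) (by
      rw [← ENNReal.ofReal_one, Metric.eball_ofReal]
      simpa using hz)
  have h2 := h.tendsto_sum_nat
  have h3 := h2.comp (tendsto_add_atTop_nat 2)
  simp only [zero_add] at h3
  refine h3.congr (fun n => ?_)
  simp only [Function.comp_apply, S]
  apply Finset.sum_congr rfl
  intro k _
  rw [binomialSeries_apply, choose_eq_bin]
  simp

theorem one_add_ne {z : ℂ} (hz : ‖z‖ < 1) (t : ℝ) (ht : t ∈ Icc (0 : ℝ) 1) :
    1 + z * (t : ℂ) ≠ 0 := by
  intro h
  have h1 : ‖z * (t : ℂ)‖ < 1 := by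
    rw [norm_mul, Complex.norm_real, Real.norm_eq_abs, abs_of_nonneg ht.1]
    nlinarith [norm_nonneg z, ht.1, ht.2]
  have h2 : z * (t : ℂ) = -1 := by linear_combination h
  rw [h2] at h1
  simp at h1

theorem G_eq_of_lt (h0 : 0 < b) (h1 : b < 1) {z : ℂ} (hz : ‖z‖ < 1) :
    G b z = (1 + z) ^ (b : ℂ) := by
  have hx : ∀ t ∈ Icc (0 : ℝ) 1, 1 + z * (t : ℂ) ≠ 0 := fun t ht => one_add_ne hz t ht
  have hR : Tendsto (fun n => R b n z) atTop (𝓝 0) := by
    -- the terms are bounded by a geometric sequence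
    have hc := g_continuous h0 h1
    obtain ⟨C, hC⟩ : ∃ C : ℝ, ∀ t ∈ Icc (0 : ℝ) 1, ‖(1 + z * (t : ℂ))⁻¹ * (g b t : ℂ)‖ ≤ C := by
      apply isCompact_Icc.exists_bound_of_continuousOn
      apply ContinuousOn.mul
      · exact ContinuousOn.inv₀ (by fun_prop) hx
      · exact (Complex.continuous_ofReal.comp hc).continuousOn
    have hb : ∀ n, ‖R b n z‖ ≤ C * ‖z‖ ^ n := by
      intro n
      unfold R
      have := intervalIntegral.norm_integral_le_of_norm_le_const (a := (0 : ℝ)) (b := 1)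
        (f := fun t : ℝ => (-(z * t)) ^ n / (1 + z * t) * (g b t : ℂ)) (C := C * ‖z‖ ^ n) (by
          intro t ht
          rw [uIoc_of_le zero_le_one] at ht
          have ht' : t ∈ Icc (0 : ℝ) 1 := ⟨ht.1.le, ht.2⟩
          have e : (-(z * t)) ^ n / (1 + z * t) * (g b t : ℂ) =
              (-(z * t)) ^ n * ((1 + z * (t : ℂ))⁻¹ * (g b t : ℂ)) := by
            rw [div_eq_mul_inv]; ring
          rw [e, norm_mul, mul_comm C]
          have e2 : ‖(-(z * (t : ℂ))) ^ n‖ ≤ ‖z‖ ^ n := by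
            rw [norm_pow, norm_neg]
            apply pow_le_pow_left₀ (norm_nonneg _)
            rw [norm_mul, Complex.norm_real, Real.norm_eq_abs, abs_of_nonneg ht'.1]
            nlinarith [norm_nonneg z, ht'.1, ht'.2]
          exact mul_le_mul e2 (hC t ht') (norm_nonneg _) (by positivity))
      simpa using this
    apply squeeze_zero_norm hb
    have := (tendsto_pow_atTop_nhds_zero_of_lt_one (norm_nonneg z) hz).const_mul C
    simpa using this
  have h3 : Tendsto (fun n => S b (n + 1) z) atTop (𝓝 (G b z)) := by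
    have : (fun n => S b (n + 1) z) = fun n => G b z + cst b * z ^ 2 * R b n z := by
      funext n; exact S_eq hx n h0 h1
    rw [this]
    have := (hR.const_mul ((cst b : ℂ) * z ^ 2)).const_add (G b z)
    simpa using this
  exact tendsto_nhds_unique h3 (S_tendsto b hz)

end Pool.Agent.X304.Brannan
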