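import Mathlib
import Pool.Agent.X304.Brannan.Rep

set_option autoImplicit false

open MeasureTheory Set Filter Topology

namespace Pool.Agent.X304.Brannan

variable {b : ℝ}

theorem sq_norm_one_add {x : ℂ} (hx : ‖x‖ = 1) (t : ℝ) :
    ‖1 + x * (t : ℂ)‖ ^ 2 = 1 + 2 * x.re * t + t ^ 2 := by
  have h1 : x.re ^ 2 + x.im ^ 2 = 1 := by
    have := Complex.sq_norm x
    rw [hx, Complex.normSq_apply] at this
    nlinarith
  rw [Complex.sq_norm, Complex.normSq_apply]
  simp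
  nlinarith [h1]

theorem Q_lower {c : ℝ} (hc : c ≤ 1) (t : ℝ) :
    (1 + t) ^ 2 * ((1 + c) / 2) ≤ 1 + 2 * c * t + t ^ 2 := by
  have : 1 + 2 * c * t + t ^ 2 - (1 + t) ^ 2 * ((1 + c) / 2) = (1 - c) * (1 - t) ^ 2 / 2 := by ring
  have h2 : 0 ≤ (1 - c) * (1 - t) ^ 2 / 2 := by
    have : 0 ≤ 1 - c := by linarith
    positivity
  linarith

theorem Q_lower' {c : ℝ} (hc : c ≤ 1) (hc' : -1 < c) {t : ℝ} (ht : 0 ≤ t) :
    (1 + c) / 2 ≤ 1 + 2 * c * t + t ^ 2 := by
  have h := Q_lower hc t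
  have h2 : 1 * ((1 + c) / 2) ≤ (1 + t) ^ 2 * ((1 + c) / 2) := by
    apply mul_le_mul_of_nonneg_right _ (by linarith)
    nlinarith
  linarith

theorem Q_pos {c : ℝ} (hc : c ≤ 1) (hc' : -1 < c) {t : ℝ} (ht : 0 ≤ t) :
    0 < 1 + 2 * c * t + t ^ 2 := by
  have := Q_lower' hc hc' ht
  linarith

theorem re_le {x : ℂ} (hx : ‖x‖ = 1) : x.re ≤ 1 := by
  have := Complex.re_le_norm x
  linarith

theorem norm_lower {x : ℂ} (hx : ‖x‖ = 1) (hx' : -1 < x.re) {t : ℝ} (ht : 0 ≤ t) :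
    Real.sqrt ((1 + x.re) / 2) ≤ ‖1 + x * (t : ℂ)‖ := by
  rw [Real.sqrt_le_left (norm_nonneg _), sq_norm_one_add hx]
  exact Q_lower' (re_le hx) hx' ht

theorem ne_zero_bdry {x : ℂ} (hx : ‖x‖ = 1) (hx' : -1 < x.re) :
    ∀ t ∈ Icc (0 : ℝ) 1, 1 + x * (t : ℂ) ≠ 0 := by
  intro t ht h
  have := norm_lower hx hx' ht.1
  rw [h, norm_zero] at this
  have h2 : 0 < Real.sqrt ((1 + x.re) / 2) := Real.sqrt_pos.2 (by linarith)
  linarith

theorem G_eq (h0 : 0 < b) (h1 : b < 1) {x : ℂ} (hx : ‖x‖ = 1) (hx' : -1 < x.re) :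
    G b x = (1 + x) ^ (b : ℂ) := by
  have hc := g_continuous h0 h1
  have hpos : 0 < Real.sqrt ((1 + x.re) / 2) := Real.sqrt_pos.2 (by linarith)
  -- the path `r x`, `r → 1-`
  have hr : Tendsto (fun r : ℝ => (r : ℂ) * x) (𝓝[<] 1) (𝓝 x) := by
    have : Continuous fun r : ℝ => (r : ℂ) * x := by fun_prop
    have h := (this.tendsto 1).mono_left (nhdsWithin_le_nhds (s := Iio (1 : ℝ)))
    simpa using h
  have hev : ∀ᶠ r : ℝ in 𝓝[<] 1, r ∈ Ioo (0 : ℝ) 1 := Ioo_mem_nhdsLT zero_lt_one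
  have hR : Tendsto (fun r : ℝ => R b 0 ((r : ℂ) * x)) (𝓝[<] 1) (𝓝 (R b 0 x)) := by
    unfold R
    apply intervalIntegral.tendsto_integral_filter_of_dominated_convergence
      (fun t => (Real.sqrt ((1 + x.re) / 2))⁻¹ * g b t)
    · filter_upwards [hev] with r hr
      rw [uIoc_of_le zero_le_one]
      have hcont := den_continuous (x := (r : ℂ) * x) (b := b) (by
        intro t ht
        have := ne_zero_bdry hx hx' (r * t) ⟨mul_nonneg hr.1.le ht.1, by nlinarith [hr.1, hr.2, ht.1, ht.2]⟩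
        push_cast at this
        rwa [show (r : ℂ) * x * t = x * (r * t) by ring]) 0 h0 h1
      exact (hcont.mono Ioc_subset_Icc_self).aestronglyMeasurable measurableSet_Ioc
    · filter_upwards [hev] with r hr
      refine Eventually.of_forall fun t ht => ?_
      rw [uIoc_of_le zero_le_one] at ht
      rw [pow_zero, norm_mul, norm_div, norm_one, Complex.norm_real, Real.norm_eq_abs,
        abs_of_nonneg (g_nonneg ⟨ht.1.le, ht.2⟩), one_div]
      apply mul_le_mul_of_nonneg_right _ (g_nonneg ⟨ht.1.le, ht.2⟩)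
      apply inv_anti₀ hpos
      have := norm_lower hx hx' (t := r * t) (mul_nonneg hr.1.le ht.1.le)
      push_cast at this
      rwa [show (r : ℂ) * x * t = x * (r * t) by ring]
    · apply Continuous.intervalIntegrable
      fun_prop
    · refine Eventually.of_forall fun t ht => ?_
      rw [uIoc_of_le zero_le_one] at ht
      have hne := ne_zero_bdry hx hx' t ⟨ht.1.le, ht.2⟩
      have : Tendsto (fun r : ℝ => 1 + (r : ℂ) * x * t) (𝓝[<] 1) (𝓝 (1 + x * t)) :=
        (hr.mul_const _).const_add _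
      simp only [pow_zero]
      exact (tendsto_const_nhds.div this hne).mul_const _
  have hG : Tendsto (fun r : ℝ => G b ((r : ℂ) * x)) (𝓝[<] 1) (𝓝 (G b x)) := by
    unfold G
    exact ((hr.const_mul _).const_add _).sub (((hr.pow 2).const_mul _).mul hR)
  have hP : Tendsto (fun r : ℝ => (1 + (r : ℂ) * x) ^ (b : ℂ)) (𝓝[<] 1) (𝓝 ((1 + x) ^ (b : ℂ))) := by
    have hs : (1 + x) ∈ Complex.slitPlane := by
      left
      simp
      linarith
    exact (continuousAt_cpow_const hs).tendsto.comp (hr.const_add 1)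
  refine tendsto_nhds_unique hG (hP.congr' ?_)
  filter_upwards [hev] with r hr
  rw [G_eq_of_lt h0 h1]
  rw [norm_mul, hx, mul_one, Complex.norm_real, Real.norm_eq_abs, abs_of_pos hr.1]
  exact hr.2

end Pool.Agent.X304.Brannan
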