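import Mathlib
import Pool.Agent.X304.Brannan.Bdry

set_option autoImplicit false

open MeasureTheory Set Filter Topology

namespace Pool.Agent.X304.Brannan

variable {b : ℝ}

/-- `‖1 + x t‖²` for a unit vector `x` of real part `c` -/
noncomputable def Q (c t : ℝ) : ℝ := 1 + 2 * c * t + t ^ 2

theorem Q_ge_min {c t : ℝ} (hc : -1 < c) (ht : 0 ≤ t) : min 1 ((1 + c) / 2) ≤ Q c t := by
  unfold Q
  rcases le_total c 1 with h | h
  · exact (min_le_right _ _).trans (Q_lower' h hc ht)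
  · refine (min_le_left _ _).trans ?_
    nlinarith [mul_nonneg (by linarith : (0 : ℝ) ≤ c) ht]

theorem Qpos {c t : ℝ} (hc : -1 < c) (ht : 0 ≤ t) : 0 < Q c t :=
  lt_of_lt_of_le (lt_min one_pos (by linarith)) (Q_ge_min hc ht)

theorem Q_rpow_continuousOn {c : ℝ} (hc : -1 < c) (p : ℝ) :
    ContinuousOn (fun t : ℝ => (Q c t) ^ p) (Icc 0 1) := by
  apply ContinuousOn.rpow_const
  · unfold Q; fun_prop
  · intro t ht
    exact Or.inl (Qpos hc ht.1).ne'

theorem intInt {f : ℝ → ℝ} (hf : ContinuousOn f (Icc 0 1)) : IntervalIntegrable f volume 0 1 := by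
  apply ContinuousOn.intervalIntegrable
  rwa [uIcc_of_le zero_le_one]

/-- the comparison function -/
noncomputable def Psi (b c : ℝ) : ℝ :=
  (2 + 2 * c) ^ (b / 2) + cst b * ∫ t in (0 : ℝ)..1, g b t * (Q c t) ^ (-(1 / 2) : ℝ)

theorem Psi_hasDerivAt (h0 : 0 < b) (h1 : b < 1) {c : ℝ} (hc : -1 < c) :
    HasDerivAt (Psi b) (b * (2 + 2 * c) ^ (b / 2 - 1) -
      cst b * ∫ t in (0 : ℝ)..1, g b t * (t * (Q c t) ^ (-(3 / 2) : ℝ))) c := by
  have hgc := g_continuous h0 h1
  have e1 : HasDerivAt (fun c : ℝ => (2 + 2 * c) ^ (b / 2)) (b * (2 + 2 * c) ^ (b / 2 - 1)) c := by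
    have h := (((hasDerivAt_id c).const_mul 2).const_add 2).rpow_const (p := b / 2)
      (Or.inl (by simp; linarith : (2 + 2 * id c) ≠ 0))
    refine h.congr_deriv ?_
    simp only [id]
    ring
  set c1 : ℝ := (c - 1) / 2 with hc1
  have hc1' : -1 < c1 := by rw [hc1]; linarith
  have hc1c : c1 < c := by rw [hc1]; linarith
  set δ : ℝ := min 1 ((1 + c1) / 2) with hδ
  have hδ0 : 0 < δ := lt_min one_pos (by linarith)
  have e2 := intervalIntegral.hasDerivAt_integral_of_dominated_loc_of_deriv_le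
    (μ := volume) (a := 0) (b := 1)
    (F := fun (c t : ℝ) => g b t * (Q c t) ^ (-(1 / 2) : ℝ))
    (F' := fun (c t : ℝ) => -(g b t * (t * (Q c t) ^ (-(3 / 2) : ℝ)))) (x₀ := c)
    (bound := fun t => g b t * (1 * δ ^ (-(3 / 2) : ℝ)))
    (s := Ioi c1) (Ioi_mem_nhds hc1c) ?_ ?_ ?_ ?_ ?_ ?_
  · refine (e1.add (e2.2.const_mul (cst b))).congr_deriv ?_
    rw [intervalIntegral.integral_neg]
    ring
  · filter_upwards [Ioi_mem_nhds hc] with c' hc'
    rw [uIoc_of_le zero_le_one]
    exact ((hgc.continuousOn.mul (Q_rpow_continuousOn hc' _)).mono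
      Ioc_subset_Icc_self).aestronglyMeasurable measurableSet_Ioc
  · exact intInt (hgc.continuousOn.mul (Q_rpow_continuousOn hc _))
  · rw [uIoc_of_le zero_le_one]
    exact (((hgc.continuousOn.mul (continuousOn_id.mul (Q_rpow_continuousOn hc _))).neg).mono
      Ioc_subset_Icc_self).aestronglyMeasurable measurableSet_Ioc
  · refine Eventually.of_forall fun t ht c' hc' => ?_
    rw [uIoc_of_le zero_le_one] at ht
    have hc'' : -1 < c' := lt_trans hc1' hc'
    have hQ := Qpos hc'' ht.1.le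
    have hg := g_nonneg (b := b) ⟨ht.1.le, ht.2⟩
    have hp : 0 ≤ (Q c' t) ^ (-(3 / 2) : ℝ) := (Real.rpow_pos_of_pos hQ _).le
    rw [norm_neg, Real.norm_eq_abs, abs_of_nonneg (mul_nonneg hg (mul_nonneg ht.1.le hp))]
    apply mul_le_mul_of_nonneg_left _ hg
    apply mul_le_mul ht.2 _ hp zero_le_one
    apply Real.rpow_le_rpow_of_nonpos hδ0 _ (by norm_num)
    refine le_trans ?_ (Q_ge_min hc'' ht.1.le)
    apply min_le_min_left
    have : c1 < c' := hc'
    linarith
  · exact (hgc.mul continuous_const).intervalIntegrable _ _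
  · refine Eventually.of_forall fun t ht c' hc' => ?_
    rw [uIoc_of_le zero_le_one] at ht
    have hc'' : -1 < c' := lt_trans hc1' hc'
    have hQ := Qpos hc'' ht.1.le
    have hd : HasDerivAt (fun c : ℝ => Q c t) (2 * t) c' := by
      unfold Q
      have := (((hasDerivAt_id c').const_mul 2).mul_const t).const_add 1 |>.add_const (t ^ 2)
      refine this.congr_deriv ?_
      ring
    have h := (hd.rpow_const (p := (-(1 / 2) : ℝ)) (Or.inl hQ.ne')).const_mul (g b t)
    refine h.congr_deriv ?_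
    rw [show (-(1 / 2) : ℝ) - 1 = -(3 / 2) by norm_num]
    ring

theorem hasDerivAt_Q (c t : ℝ) : HasDerivAt (fun t : ℝ => Q c t) (2 * (c + t)) t := by
  unfold Q
  have := (((hasDerivAt_id t).const_mul (2 * c)).const_add 1).add (hasDerivAt_pow 2 t)
  refine this.congr_deriv ?_
  simp
  ring

theorem Q_three_halves {q : ℝ} (hq : 0 < q) :
    q ^ (-(1 / 2) : ℝ) = q * q ^ (-(3 / 2) : ℝ) := by
  conv_rhs => rw [← Real.rpow_one q]
  rw [← Real.rpow_mul hq.le, ← Real.rpow_add hq]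
  norm_num

theorem int_one {c : ℝ} (hc : -1 < c) (hc' : c < 1) :
    ∫ t in (0 : ℝ)..1, t * (Q c t) ^ (-(3 / 2) : ℝ) =
      2 / (Real.sqrt (2 + 2 * c) ^ 2 * (2 + Real.sqrt (2 + 2 * c))) := by
  have hcc : (1 - c ^ 2) ≠ 0 := by nlinarith
  have h := intervalIntegral.integral_eq_sub_of_hasDerivAt_of_le (a := 0) (b := 1)
    (f := fun t : ℝ => -(1 + c * t) * (Q c t) ^ (-(1 / 2) : ℝ) / (1 - c ^ 2))
    (f' := fun t : ℝ => t * (Q c t) ^ (-(3 / 2) : ℝ)) zero_le_one
    (by
      apply ContinuousOn.div_const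
      apply ContinuousOn.mul (by fun_prop)
      exact Q_rpow_continuousOn hc _) ?_
    (intInt (continuousOn_id.mul (Q_rpow_continuousOn hc _)))
  · rw [h]
    have hs : 0 < Real.sqrt (2 + 2 * c) := Real.sqrt_pos.2 (by linarith)
    have hs2 : Real.sqrt (2 + 2 * c) ^ 2 = 2 + 2 * c := Real.sq_sqrt (by linarith)
    have hQ1 : Q c 1 = Real.sqrt (2 + 2 * c) ^ 2 := by rw [hs2]; unfold Q; ring
    have hQ0 : Q c 0 = 1 := by simp [Q]
    rw [hQ1, hQ0]
    set s := Real.sqrt (2 + 2 * c)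
    have e : (s ^ 2) ^ (-(1 / 2) : ℝ) = s⁻¹ := by
      rw [← Real.rpow_natCast s 2, ← Real.rpow_mul hs.le]
      norm_num
      exact Real.rpow_neg_one s
    rw [e, Real.one_rpow]
    have hcs : c = (s ^ 2 - 2) / 2 := by rw [hs2]; ring
    have hs4 : s < 2 := by nlinarith
    have h2 : (4 - s ^ 2) ≠ 0 := by nlinarith
    have h3 : (2 + s) ≠ 0 := by linarith
    have e3 : 1 - c ^ 2 = s ^ 2 * ((2 - s) * (2 + s)) / 4 := by rw [hcs]; ring
    have h4 : (2 - s) ≠ 0 := by linarith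
    rw [e3, hcs]
    field_simp
    ring
  · intro t ht
    have hQ := Qpos hc ht.1.le
    have e1 : HasDerivAt (fun t : ℝ => -(1 + c * t)) (-c) t := by
      have := (((hasDerivAt_id t).const_mul c).const_add 1).neg
      refine this.congr_deriv ?_
      ring
    have e2 := (hasDerivAt_Q c t).rpow_const (p := (-(1 / 2) : ℝ)) (Or.inl hQ.ne')
    have e := (e1.mul e2).div_const (1 - c ^ 2)
    refine e.congr_deriv ?_
    rw [show (-(1 / 2) : ℝ) - 1 = -(3 / 2) by norm_num, Q_three_halves hQ]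
    unfold Q
    field_simp
    ring

theorem int_two {c : ℝ} (hc : -1 < c) (hc' : c < 1) :
    ∫ t in (0 : ℝ)..1, (1 - t) * (Q c t) ^ (-(3 / 2) : ℝ) =
      2 / (Real.sqrt (2 + 2 * c) * (2 + Real.sqrt (2 + 2 * c))) := by
  have hcc : (1 - c) ≠ 0 := by linarith
  have h := intervalIntegral.integral_eq_sub_of_hasDerivAt_of_le (a := 0) (b := 1)
    (f := fun t : ℝ => (1 + t) * (Q c t) ^ (-(1 / 2) : ℝ) / (1 - c))
    (f' := fun t : ℝ => (1 - t) * (Q c t) ^ (-(3 / 2) : ℝ)) zero_le_one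
    (by
      apply ContinuousOn.div_const
      apply ContinuousOn.mul (by fun_prop)
      exact Q_rpow_continuousOn hc _) ?_
    (intInt ((continuousOn_const.sub continuousOn_id).mul (Q_rpow_continuousOn hc _)))
  · rw [h]
    have hs : 0 < Real.sqrt (2 + 2 * c) := Real.sqrt_pos.2 (by linarith)
    have hs2 : Real.sqrt (2 + 2 * c) ^ 2 = 2 + 2 * c := Real.sq_sqrt (by linarith)
    have hQ1 : Q c 1 = Real.sqrt (2 + 2 * c) ^ 2 := by rw [hs2]; unfold Q; ring
    have hQ0 : Q c 0 = 1 := by simp [Q]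
    rw [hQ1, hQ0]
    set s := Real.sqrt (2 + 2 * c)
    have e : (s ^ 2) ^ (-(1 / 2) : ℝ) = s⁻¹ := by
      rw [← Real.rpow_natCast s 2, ← Real.rpow_mul hs.le]
      norm_num
      exact Real.rpow_neg_one s
    rw [e, Real.one_rpow]
    have hcs : c = (s ^ 2 - 2) / 2 := by rw [hs2]; ring
    have hs4 : s < 2 := by nlinarith
    have h3 : (2 + s) ≠ 0 := by linarith
    have h4 : (2 - s) ≠ 0 := by linarith
    have e3 : 1 - c = (2 - s) * (2 + s) / 2 := by rw [hcs]; ring
    rw [e3]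
    field_simp
    ring
  · intro t ht
    have hQ := Qpos hc ht.1.le
    have e1 : HasDerivAt (fun t : ℝ => 1 + t) 1 t := by
      simpa using (hasDerivAt_id t).const_add 1
    have e2 := (hasDerivAt_Q c t).rpow_const (p := (-(1 / 2) : ℝ)) (Or.inl hQ.ne')
    have e := (e1.mul e2).div_const (1 - c)
    refine e.congr_deriv ?_
    rw [show (-(1 / 2) : ℝ) - 1 = -(3 / 2) by norm_num, Q_three_halves hQ]
    unfold Q
    field_simp
    ring

theorem key_ineq (h0 : 0 < b) (h1 : b < 1) {c : ℝ} (hc : -1 < c) (hc' : c < 1) :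
    cst b * ∫ t in (0 : ℝ)..1, g b t * (t * (Q c t) ^ (-(3 / 2) : ℝ)) ≤
      b * (2 + 2 * c) ^ (b / 2 - 1) := by
  have hgc := g_continuous h0 h1
  set s := Real.sqrt (2 + 2 * c) with hsdef
  have hs : 0 < s := Real.sqrt_pos.2 (by linarith)
  have hs2 : s ^ 2 = 2 + 2 * c := Real.sq_sqrt (by linarith)
  have hbound : ∫ t in (0 : ℝ)..1, g b t * (t * (Q c t) ^ (-(3 / 2) : ℝ)) ≤
      ∫ t in (0 : ℝ)..1, s ^ (b - 1) * ((1 - b) * s * (t * (Q c t) ^ (-(3 / 2) : ℝ)) +
        b * ((1 - t) * (Q c t) ^ (-(3 / 2) : ℝ))) := by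
    apply intervalIntegral.integral_mono_on zero_le_one
    · exact intInt (hgc.continuousOn.mul (continuousOn_id.mul (Q_rpow_continuousOn hc _)))
    · apply intInt
      apply ContinuousOn.mul continuousOn_const
      exact (continuousOn_const.mul (continuousOn_id.mul (Q_rpow_continuousOn hc _))).add
        (continuousOn_const.mul ((continuousOn_const.sub continuousOn_id).mul
          (Q_rpow_continuousOn hc _)))
    · intro t ht
      have hQ := Qpos hc ht.1
      have hp : 0 ≤ (Q c t) ^ (-(3 / 2) : ℝ) := (Real.rpow_pos_of_pos hQ _).le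
      have hg := g_nonneg (b := b) ht
      have hAM := Real.geom_mean_le_arith_mean2_weighted (w₁ := 1 - b) (w₂ := b)
        (p₁ := s * t) (p₂ := 1 - t) (by linarith) h0.le (mul_nonneg hs.le ht.1)
        (by linarith [ht.2]) (by ring)
      have e : g b t = s ^ (b - 1) * ((s * t) ^ (1 - b) * (1 - t) ^ b) := by
        unfold g
        rw [Real.mul_rpow hs.le ht.1, show b - 1 = -(1 - b) by ring, Real.rpow_neg hs.le]
        have : s ^ (1 - b) ≠ 0 := (Real.rpow_pos_of_pos hs _).ne'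
        field_simp
      have hsb : 0 ≤ s ^ (b - 1) := (Real.rpow_pos_of_pos hs _).le
      calc g b t * (t * (Q c t) ^ (-(3 / 2) : ℝ)) ≤ g b t * (1 * (Q c t) ^ (-(3 / 2) : ℝ)) := by
            apply mul_le_mul_of_nonneg_left _ hg
            exact mul_le_mul_of_nonneg_right ht.2 hp
        _ = s ^ (b - 1) * (((s * t) ^ (1 - b) * (1 - t) ^ b) * (Q c t) ^ (-(3 / 2) : ℝ)) := by
            rw [e]; ring
        _ ≤ s ^ (b - 1) * (((1 - b) * (s * t) + b * (1 - t)) * (Q c t) ^ (-(3 / 2) : ℝ)) := by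
            apply mul_le_mul_of_nonneg_left _ hsb
            exact mul_le_mul_of_nonneg_right hAM hp
        _ = _ := by ring
  have hval : ∫ t in (0 : ℝ)..1, s ^ (b - 1) * ((1 - b) * s * (t * (Q c t) ^ (-(3 / 2) : ℝ)) +
        b * ((1 - t) * (Q c t) ^ (-(3 / 2) : ℝ))) = s ^ (b - 1) * (2 / (s * (2 + s))) := by
    rw [intervalIntegral.integral_const_mul, intervalIntegral.integral_add,
      intervalIntegral.integral_const_mul, intervalIntegral.integral_const_mul, int_one hc hc',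
      int_two hc hc', ← hsdef]
    · field_simp
      ring
    · exact intInt (continuousOn_const.mul (continuousOn_id.mul (Q_rpow_continuousOn hc _)))
    · exact intInt (continuousOn_const.mul ((continuousOn_const.sub continuousOn_id).mul
          (Q_rpow_continuousOn hc _)))
  have hpw : (2 + 2 * c) ^ (b / 2 - 1) = s ^ (b - 1) * s⁻¹ := by
    rw [← hs2, ← Real.rpow_natCast s 2, ← Real.rpow_mul hs.le, ← Real.rpow_neg_one s,
      ← Real.rpow_add hs]
    congr 1
    push_cast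
    ring
  rw [hpw]
  have hle : s ^ (b - 1) * (2 / (s * (2 + s))) ≤ s ^ (b - 1) * s⁻¹ := by
    apply mul_le_mul_of_nonneg_left _ (Real.rpow_pos_of_pos hs _).le
    rw [div_le_iff₀ (by positivity)]
    field_simp
    linarith
  have hfin := (hbound.trans_eq hval).trans hle
  have hpos : 0 ≤ s ^ (b - 1) * s⁻¹ := by positivity
  calc cst b * _ ≤ cst b * (s ^ (b - 1) * s⁻¹) :=
        mul_le_mul_of_nonneg_left hfin (cst_pos h0 h1).le
    _ ≤ b * (s ^ (b - 1) * s⁻¹) := mul_le_mul_of_nonneg_right (cst_le h0 h1) hpos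

theorem Psi_le (h0 : 0 < b) (h1 : b < 1) {c : ℝ} (hc : -1 < c) (hc' : c ≤ 1) :
    Psi b c ≤ Psi b 1 := by
  have hmono : MonotoneOn (Psi b) (Icc c 1) := by
    apply monotoneOn_of_deriv_nonneg (convex_Icc _ _)
    · intro y hy
      exact (Psi_hasDerivAt h0 h1 (lt_of_lt_of_le hc hy.1)).continuousAt.continuousWithinAt
    · intro y hy
      rw [interior_Icc] at hy
      exact (Psi_hasDerivAt h0 h1 (lt_trans hc hy.1)).differentiableAt.differentiableWithinAt
    · intro y hy
      rw [interior_Icc] at hy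
      rw [(Psi_hasDerivAt h0 h1 (lt_trans hc hy.1)).deriv]
      have := key_ineq h0 h1 (lt_trans hc hy.1) hy.2
      linarith
  exact hmono ⟨le_rfl, hc'⟩ ⟨hc', le_rfl⟩ hc'

end Pool.Agent.X304.Brannan
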