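import Mathlib
import Pool.Agent.X304.Brannan.Mono

set_option autoImplicit false

open MeasureTheory Set Filter Topology

namespace Pool.Agent.X304.Brannan

variable {b : ℝ}

/-- partial sums at `x = 1` -/
noncomputable def Sr (a : ℝ) (m : ℕ) : ℝ := ∑ k ∈ Finset.range (m + 1), bin a k

theorem S_one (a : ℝ) (m : ℕ) : S a m 1 = (Sr a m : ℂ) := by
  unfold S Sr
  push_cast
  simp

theorem norm_eq_sqrt {x : ℂ} (hx : ‖x‖ = 1) (t : ℝ) :
    ‖1 + x * (t : ℂ)‖ = Real.sqrt (Q x.re t) := by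
  rw [Q, ← sq_norm_one_add hx, Real.sqrt_sq (norm_nonneg _)]

theorem norm_inv_eq {x : ℂ} (hx : ‖x‖ = 1) (hx' : -1 < x.re) {t : ℝ} (ht : 0 ≤ t) :
    ‖1 + x * (t : ℂ)‖⁻¹ = (Q x.re t) ^ (-(1 / 2) : ℝ) := by
  rw [norm_eq_sqrt hx, Real.sqrt_eq_rpow, Real.rpow_neg (Qpos hx' ht).le]

theorem norm_R_le (h0 : 0 < b) (h1 : b < 1) {x : ℂ} (hx : ‖x‖ = 1) (hx' : -1 < x.re) (n : ℕ) :
    ‖R b n x‖ ≤ ∫ t in (0 : ℝ)..1, t ^ n * (g b t * (Q x.re t) ^ (-(1 / 2) : ℝ)) := by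
  have hgc := g_continuous h0 h1
  unfold R
  apply intervalIntegral.norm_integral_le_of_norm_le zero_le_one
  · refine Eventually.of_forall fun t ht => ?_
    rw [norm_mul, norm_div, norm_pow, norm_neg, norm_mul, hx, one_mul, Complex.norm_real,
      Complex.norm_real, Real.norm_eq_abs, Real.norm_eq_abs, abs_of_nonneg ht.1.le,
      abs_of_nonneg (g_nonneg ⟨ht.1.le, ht.2⟩), div_eq_mul_inv, norm_inv_eq hx hx' ht.1.le]
    apply le_of_eq
    ring
  · apply intInt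
    apply ContinuousOn.mul (by fun_prop)
    exact hgc.continuousOn.mul (Q_rpow_continuousOn hx' _)

theorem R_one (h0 : 0 < b) (h1 : b < 1) {n : ℕ} (hn : Even n) :
    R b n 1 = ((∫ t in (0 : ℝ)..1, t ^ n * (g b t * (Q 1 t) ^ (-(1 / 2) : ℝ)) : ℝ) : ℂ) := by
  unfold R
  rw [← intervalIntegral.integral_ofReal]
  apply intervalIntegral.integral_congr
  intro t ht
  rw [uIcc_of_le zero_le_one] at ht
  have hQ : (Q 1 t) ^ (-(1 / 2) : ℝ) = (1 + t)⁻¹ := by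
    have h1t : 0 < 1 + t := by linarith [ht.1]
    rw [show Q 1 t = (1 + t) ^ 2 by unfold Q; ring, ← Real.rpow_natCast (1 + t) 2,
      ← Real.rpow_mul h1t.le]
    norm_num
    exact Real.rpow_neg_one _
  simp only [one_mul]
  rw [hn.neg_pow, hQ]
  push_cast
  ring

theorem norm_one_add_cpow {x : ℂ} (hx : ‖x‖ = 1) (hx' : -1 < x.re) (a : ℝ) :
    ‖(1 + x) ^ (a : ℂ)‖ = (2 + 2 * x.re) ^ (a / 2) := by
  have h := sq_norm_one_add hx 1
  simp only [Complex.ofReal_one, mul_one, one_pow] at h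
  have hne : (1 + x) ≠ 0 := by
    have := ne_zero_bdry hx hx' 1 (by simp)
    simpa using this
  rw [Complex.norm_cpow_of_ne_zero hne]
  simp only [Complex.ofReal_re, Complex.ofReal_im, mul_zero, Real.exp_zero, div_one]
  have h2 : (2 + 2 * x.re) = ‖1 + x‖ ^ 2 := by rw [h]; ring
  rw [h2, ← Real.rpow_natCast, ← Real.rpow_mul (norm_nonneg _)]
  congr 1
  push_cast
  ring

/-- The main inequality for exponents in `(0,1)` and odd partial sums, `x ≠ -1`. -/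
theorem odd_lt_one (h0 : 0 < b) (h1 : b < 1) {n : ℕ} (hn : Even n) {x : ℂ} (hx : ‖x‖ = 1)
    (hx' : -1 < x.re) : ‖S b (n + 1) x‖ ≤ Sr b (n + 1) := by
  have hgc := g_continuous h0 h1
  have hcp := cst_pos h0 h1
  have e1 : Sr b (n + 1) = (2 + 2 * 1 : ℝ) ^ (b / 2) +
      cst b * ∫ t in (0 : ℝ)..1, t ^ n * (g b t * (Q 1 t) ^ (-(1 / 2) : ℝ)) := by
    have hn1 : ‖(1 : ℂ)‖ = 1 := by simp
    have hr1 : (-1 : ℝ) < (1 : ℂ).re := by simp
    have h := S_eq (b := b) (x := 1) (ne_zero_bdry hn1 hr1) n h0 h1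
    rw [S_one, R_one h0 h1 hn, G_eq h0 h1 hn1 hr1] at h
    have h2 : ((1 : ℂ) + 1) ^ (b : ℂ) = (((2 + 2 * 1 : ℝ) ^ (b / 2) : ℝ) : ℂ) := by
      have : (2 + 2 * 1 : ℝ) ^ (b / 2) = (2 : ℝ) ^ b := by
        rw [show (2 + 2 * 1 : ℝ) = (2 : ℝ) ^ (2 : ℝ) by norm_num, ← Real.rpow_mul (by norm_num)]
        congr 1; ring
      rw [this, Complex.ofReal_cpow (by norm_num)]
      norm_num
    rw [h2] at h
    simp only [one_pow, mul_one] at h
    exact_mod_cast h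
  have e2 : ‖S b (n + 1) x‖ ≤ (2 + 2 * x.re) ^ (b / 2) +
      cst b * ∫ t in (0 : ℝ)..1, t ^ n * (g b t * (Q x.re t) ^ (-(1 / 2) : ℝ)) := by
    rw [S_eq (ne_zero_bdry hx hx') n h0 h1, G_eq h0 h1 hx hx']
    refine (norm_add_le _ _).trans ?_
    rw [norm_one_add_cpow hx hx', norm_mul, norm_mul, norm_pow, hx, one_pow, mul_one,
      Complex.norm_real, Real.norm_eq_abs, abs_of_pos hcp]
    have := mul_le_mul_of_nonneg_left (norm_R_le h0 h1 hx hx' n) hcp.le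
    linarith
  rw [e1]
  refine e2.trans ?_
  -- compare with the case `n = 0`
  have hPsi := Psi_le h0 h1 hx' (re_le hx)
  unfold Psi at hPsi
  have i1 : ∀ {c : ℝ}, -1 < c → ∀ n : ℕ, IntervalIntegrable
      (fun t : ℝ => t ^ n * (g b t * (Q c t) ^ (-(1 / 2) : ℝ))) volume 0 1 := fun hc n =>
    intInt (ContinuousOn.mul (by fun_prop) (hgc.continuousOn.mul (Q_rpow_continuousOn hc _)))
  have i0 : ∀ {c : ℝ}, -1 < c → IntervalIntegrable
      (fun t : ℝ => (g b t * (Q c t) ^ (-(1 / 2) : ℝ))) volume 0 1 := fun hc =>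
    intInt (hgc.continuousOn.mul (Q_rpow_continuousOn hc _))
  have hcmp : (∫ t in (0 : ℝ)..1, (g b t * (Q 1 t) ^ (-(1 / 2) : ℝ))) -
      (∫ t in (0 : ℝ)..1, t ^ n * (g b t * (Q 1 t) ^ (-(1 / 2) : ℝ))) ≤
      (∫ t in (0 : ℝ)..1, (g b t * (Q x.re t) ^ (-(1 / 2) : ℝ))) -
      (∫ t in (0 : ℝ)..1, t ^ n * (g b t * (Q x.re t) ^ (-(1 / 2) : ℝ))) := by
    rw [← intervalIntegral.integral_sub (i0 (by norm_num)) (i1 (by norm_num) n),
      ← intervalIntegral.integral_sub (i0 hx') (i1 hx' n)]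
    apply intervalIntegral.integral_mono_on zero_le_one
      ((i0 (by norm_num)).sub (i1 (by norm_num) n)) ((i0 hx').sub (i1 hx' n))
    intro t ht
    have hg := g_nonneg (b := b) ht
    have hle : (Q 1 t) ^ (-(1 / 2) : ℝ) ≤ (Q x.re t) ^ (-(1 / 2) : ℝ) := by
      apply Real.rpow_le_rpow_of_nonpos (Qpos hx' ht.1) _ (by norm_num)
      unfold Q
      nlinarith [re_le hx, ht.1, mul_nonneg (by linarith [re_le hx] : 0 ≤ 1 - x.re) ht.1]
    have htn : 0 ≤ 1 - t ^ n := by linarith [pow_le_one₀ ht.1 ht.2 (n := n)]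
    have := mul_le_mul_of_nonneg_left (mul_le_mul_of_nonneg_left hle hg) htn
    linarith
  nlinarith

end Pool.Agent.X304.Brannan
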