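import Mathlib
import Pool.Agent.X304.Brannan.Odd

set_option autoImplicit false

open MeasureTheory Set Filter Topology

namespace Pool.Agent.X304.Brannan

variable {b : ℝ}

theorem bin_pascal (a : ℝ) (k : ℕ) : bin (1 + a) (k + 1) = bin a (k + 1) + bin a k := by
  induction k with
  | zero => rw [bin_one, bin_one, bin_zero]; ring
  | succ k ih =>
    have h1 : ((k : ℝ) + 1) ≠ 0 := by positivity
    have h2 : ((k : ℝ) + 2) ≠ 0 := by positivity
    rw [bin_succ (1 + a) (k + 1), ih, bin_succ a (k + 1), bin_succ a k]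
    push_cast
    field_simp
    ring

theorem S_pascal (a : ℝ) (m : ℕ) (x : ℂ) : S (1 + a) (m + 1) x = S a (m + 1) x + x * S a m x := by
  unfold S
  rw [Finset.sum_range_succ' (n := m + 1), Finset.sum_range_succ' (n := m + 1), Finset.mul_sum]
  have : ∀ k, (bin (1 + a) (k + 1) : ℂ) * x ^ (k + 1) =
      (bin a (k + 1) : ℂ) * x ^ (k + 1) + x * ((bin a k : ℂ) * x ^ k) := by
    intro k
    rw [bin_pascal]
    push_cast
    ring
  simp only [this, Finset.sum_add_distrib, bin_zero]
  ring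

theorem Sr_pascal (a : ℝ) (m : ℕ) : Sr (1 + a) (m + 1) = Sr a (m + 1) + Sr a m := by
  have h := S_pascal a m 1
  rw [S_one, S_one, S_one] at h
  have : ((Sr (1 + a) (m + 1) : ℝ) : ℂ) = ((Sr a (m + 1) + Sr a m : ℝ) : ℂ) := by
    rw [h]; push_cast; ring
  exact_mod_cast this

/-- the second remainder integral -/
noncomputable def K (b : ℝ) (n : ℕ) (x : ℂ) : ℂ :=
  ∫ t in (0 : ℝ)..1, ((t ^ n * (1 - t) * g b t : ℝ) : ℂ) * (1 + x * t)⁻¹

theorem K_integrable (h0 : 0 < b) (h1 : b < 1) {x : ℂ}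
    (hx : ∀ t ∈ Icc (0 : ℝ) 1, 1 + x * (t : ℂ) ≠ 0) (n : ℕ) :
    IntervalIntegrable (fun t : ℝ => ((t ^ n * (1 - t) * g b t : ℝ) : ℂ) * (1 + x * t)⁻¹)
      volume 0 1 := by
  have hgc := g_continuous h0 h1
  apply ContinuousOn.intervalIntegrable
  rw [uIcc_of_le zero_le_one]
  apply ContinuousOn.mul
  · apply Continuous.continuousOn
    fun_prop
  · exact ContinuousOn.inv₀ (by fun_prop) hx

theorem R_comb (h0 : 0 < b) (h1 : b < 1) {x : ℂ}
    (hx : ∀ t ∈ Icc (0 : ℝ) 1, 1 + x * (t : ℂ) ≠ 0) (n : ℕ) :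
    R b (n + 1) x + x * R b n x = (-1) ^ n * x ^ (n + 1) * K b n x := by
  unfold R K
  rw [← intervalIntegral.integral_const_mul, ← intervalIntegral.integral_const_mul,
    ← intervalIntegral.integral_add (den_integrable hx (n + 1) h0 h1)
      ((den_integrable hx n h0 h1).const_mul _)]
  apply intervalIntegral.integral_congr
  intro t ht
  rw [uIcc_of_le zero_le_one] at ht
  have := hx t ht
  push_cast
  have e : (-(x * (t : ℂ))) ^ n = (-1) ^ n * x ^ n * (t : ℂ) ^ n := by
    rw [← mul_pow, ← mul_pow]; ring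
  simp only [pow_succ, e]
  field_simp
  ring

theorem S_mid (h0 : 0 < b) (h1 : b < 1) {x : ℂ}
    (hx : ∀ t ∈ Icc (0 : ℝ) 1, 1 + x * (t : ℂ) ≠ 0) (n : ℕ) :
    S (1 + b) (n + 2) x = (1 + x) * G b x + (-1) ^ n * cst b * x ^ (n + 3) * K b n x := by
  rw [show n + 2 = (n + 1) + 1 by ring, S_pascal, S_eq hx (n + 1) h0 h1, S_eq hx n h0 h1]
  have := R_comb h0 h1 hx n
  linear_combination (cst b * x ^ 2 : ℂ) * this

/-- the value of `K` at `1` -/
noncomputable def Kr (b : ℝ) (n : ℕ) : ℝ := ∫ t in (0 : ℝ)..1, t ^ n * (1 - t) * g b t * (1 + t)⁻¹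

noncomputable def Am (b : ℝ) (n : ℕ) : ℝ := ∫ t in (0 : ℝ)..1, t ^ n * (1 - t) * g b t

theorem K_one (b : ℝ) (n : ℕ) : K b n 1 = (Kr b n : ℂ) := by
  unfold K Kr
  rw [← intervalIntegral.integral_ofReal]
  apply intervalIntegral.integral_congr
  intro t _
  push_cast
  ring

theorem Sr_mid (h0 : 0 < b) (h1 : b < 1) (n : ℕ) :
    Sr (1 + b) (n + 2) = 2 ^ (1 + b) + (-1) ^ n * cst b * Kr b n := by
  have hn1 : ‖(1 : ℂ)‖ = 1 := by simp
  have hr1 : (-1 : ℝ) < (1 : ℂ).re := by simp
  have h := S_mid (b := b) h0 h1 (x := 1) (ne_zero_bdry hn1 hr1) n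
  rw [S_one, K_one, G_eq h0 h1 hn1 hr1] at h
  have h2 : ((1 : ℂ) + 1) * (1 + 1) ^ (b : ℂ) = (((2 : ℝ) ^ (1 + b) : ℝ) : ℂ) := by
    rw [Real.rpow_add (by norm_num), Real.rpow_one]
    push_cast
    rw [Complex.ofReal_cpow (by norm_num)]
    norm_num
  rw [h2] at h
  simp only [one_pow, mul_one] at h
  exact_mod_cast h

theorem real_int {f : ℝ → ℝ} (hf : ContinuousOn f (Icc 0 1)) : IntervalIntegrable f volume 0 1 :=
  intInt hf

theorem w_nonneg {n : ℕ} {t : ℝ} (ht : t ∈ Icc (0 : ℝ) 1) : 0 ≤ t ^ n * (1 - t) * g b t :=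
  mul_nonneg (mul_nonneg (pow_nonneg ht.1 _) (by linarith [ht.2])) (g_nonneg ht)

theorem Am_eq (h0 : 0 < b) (h1 : b < 1) (n : ℕ) : Am b n = (1 + b) / (n + 3) * M b n := by
  have hgc := g_continuous h0 h1
  have e : Am b n = M b n - M b (n + 1) := by
    unfold Am M
    rw [← intervalIntegral.integral_sub]
    · apply intervalIntegral.integral_congr
      intro t _
      simp only [pow_succ]
      ring
    · exact (by fun_prop : Continuous _).intervalIntegrable _ _
    · exact (by fun_prop : Continuous _).intervalIntegrable _ _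
  rw [e, M_succ h0 h1]
  have : ((n : ℝ) + 3) ≠ 0 := by positivity
  field_simp
  ring

theorem cM_le (h0 : 0 < b) (h1 : b < 1) (n : ℕ) : cst b * M b n ≤ b * (1 - b) / (n + 2) := by
  have hM := M_pos h0 h1 0
  have hb : 0 < 1 - b := by linarith
  induction n with
  | zero =>
    unfold cst
    apply le_of_eq
    push_cast
    field_simp
    ring
  | succ k ih =>
    rw [M_succ h0 h1]
    have h3 : (0 : ℝ) < (k : ℝ) + 3 := by positivity
    have hk : (0 : ℝ) ≤ k := by positivity
    have hq : (k + 2 - b) / (k + 3) ≤ ((k : ℝ) + 2) / (k + 3) := by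
      apply div_le_div_of_nonneg_right _ h3.le
      linarith
    have hcM : 0 ≤ cst b * M b k := (mul_pos (cst_pos h0 h1) (M_pos h0 h1 k)).le
    calc cst b * ((k + 2 - b) / (k + 3) * M b k) = (k + 2 - b) / (k + 3) * (cst b * M b k) := by ring
      _ ≤ ((k : ℝ) + 2) / (k + 3) * (cst b * M b k) := mul_le_mul_of_nonneg_right hq hcM
      _ ≤ ((k : ℝ) + 2) / (k + 3) * (b * (1 - b) / (k + 2)) :=
          mul_le_mul_of_nonneg_left ih (by positivity)
      _ = b * (1 - b) / ((k + 1 : ℕ) + 2) := by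
          push_cast
          field_simp
          ring

theorem cA_le (h0 : 0 < b) (h1 : b < 1) (n : ℕ) :
    cst b * Am b n ≤ (b - b ^ 3) / ((n + 2) * (n + 3)) := by
  rw [Am_eq h0 h1]
  have h := cM_le h0 h1 n
  have h3 : (0 : ℝ) < (n : ℝ) + 3 := by positivity
  calc cst b * ((1 + b) / (n + 3) * M b n) = (1 + b) / (n + 3) * (cst b * M b n) := by ring
    _ ≤ (1 + b) / (n + 3) * (b * (1 - b) / (n + 2)) := by
        apply mul_le_mul_of_nonneg_left h
        positivity
    _ = _ := by field_simp; ring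

theorem Kr_nonneg (h0 : 0 < b) (h1 : b < 1) (n : ℕ) : 0 ≤ Kr b n := by
  unfold Kr
  apply intervalIntegral.integral_nonneg zero_le_one
  intro t ht
  have : 0 ≤ (1 + t)⁻¹ := by
    have := ht.1
    positivity
  exact mul_nonneg (w_nonneg ht) this

theorem inv_cont : ContinuousOn (fun t : ℝ => (1 + t)⁻¹) (Icc 0 1) := by
  apply ContinuousOn.inv₀ (by fun_prop)
  intro t ht
  have : (0 : ℝ) < 1 + t := by linarith [ht.1]
  exact this.ne'

theorem Kr_le (h0 : 0 < b) (h1 : b < 1) (n : ℕ) : Kr b n ≤ Am b n := by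
  have hgc := g_continuous h0 h1
  unfold Kr Am
  apply intervalIntegral.integral_mono_on zero_le_one
  · exact intInt (ContinuousOn.mul (by fun_prop) inv_cont)
  · exact (by fun_prop : Continuous _).intervalIntegrable _ _
  · intro t ht
    have h2 : (1 + t)⁻¹ ≤ 1 := inv_le_one_of_one_le₀ (by linarith [ht.1])
    have := mul_le_mul_of_nonneg_left h2 (w_nonneg (b := b) (n := n) ht)
    linarith

theorem norm_K_le (h0 : 0 < b) (h1 : b < 1) {x : ℂ} (hx : ‖x‖ = 1) (hx' : -1 < x.re) (n : ℕ) :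
    ‖K b n x‖ ≤ ∫ t in (0 : ℝ)..1, t ^ n * (1 - t) * g b t * (Q x.re t) ^ (-(1 / 2) : ℝ) := by
  have hgc := g_continuous h0 h1
  unfold K
  apply intervalIntegral.norm_integral_le_of_norm_le zero_le_one
  · refine Eventually.of_forall fun t ht => ?_
    rw [norm_mul, Complex.norm_real, Real.norm_eq_abs, abs_of_nonneg (w_nonneg ⟨ht.1.le, ht.2⟩),
      norm_inv, norm_inv_eq hx hx' ht.1.le]
  · exact intInt (ContinuousOn.mul (by fun_prop) (Q_rpow_continuousOn hx' _))

/-- crude bound for all points -/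
theorem norm_K_le_M (h0 : 0 < b) (h1 : b < 1) {x : ℂ} (hx : ‖x‖ = 1) (hx' : -1 < x.re) (n : ℕ) :
    ‖K b n x‖ ≤ M b n := by
  have hgc := g_continuous h0 h1
  refine (norm_K_le h0 h1 hx hx' n).trans ?_
  unfold M
  apply intervalIntegral.integral_mono_on zero_le_one
  · exact intInt (ContinuousOn.mul (by fun_prop) (Q_rpow_continuousOn hx' _))
  · exact (by fun_prop : Continuous _).intervalIntegrable _ _
  · intro t ht
    have hQ := Qpos hx' ht.1
    have h1t : 0 ≤ 1 - t := by linarith [ht.2]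
    have hkey : (1 - t) * (Q x.re t) ^ (-(1 / 2) : ℝ) ≤ 1 := by
      rw [Real.rpow_neg hQ.le, ← Real.sqrt_eq_rpow, ← div_eq_mul_inv,
        div_le_one (Real.sqrt_pos.2 hQ)]
      apply Real.le_sqrt_of_sq_le
      unfold Q
      nlinarith [ht.1]
    have hw : 0 ≤ t ^ n * g b t := mul_nonneg (pow_nonneg ht.1 _) (g_nonneg ht)
    have := mul_le_mul_of_nonneg_left hkey hw
    linarith

/-- refined bound for points in the right half plane -/
theorem norm_K_le_Kr (h0 : 0 < b) (h1 : b < 1) {x : ℂ} (hx : ‖x‖ = 1) (hx' : 0 ≤ x.re) (n : ℕ) :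
    ‖K b n x‖ ≤ Kr b n + (1 - x.re) / 3 * Am b n := by
  have hgc := g_continuous h0 h1
  have hx'' : -1 < x.re := by linarith
  refine (norm_K_le h0 h1 hx hx'' n).trans ?_
  unfold Kr Am
  rw [← intervalIntegral.integral_const_mul, ← intervalIntegral.integral_add]
  · apply intervalIntegral.integral_mono_on zero_le_one
    · exact intInt (ContinuousOn.mul (by fun_prop) (Q_rpow_continuousOn hx'' _))
    · apply IntervalIntegrable.add
      · exact intInt (ContinuousOn.mul (by fun_prop) inv_cont)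
      · exact (by fun_prop : Continuous _).intervalIntegrable _ _
    · intro t ht
      have hQ := Qpos hx'' ht.1
      have hc1 := re_le hx
      have hkey : (Q x.re t) ^ (-(1 / 2) : ℝ) ≤ (1 + t)⁻¹ + (1 - x.re) / 3 := by
        rw [Real.rpow_neg hQ.le, ← Real.sqrt_eq_rpow]
        set r := Real.sqrt (Q x.re t) with hr
        have hr2 : r ^ 2 = 1 + 2 * x.re * t + t ^ 2 := Real.sq_sqrt hQ.le
        have hr1 : 1 ≤ r := by
          apply Real.le_sqrt_of_sq_le
          unfold Q
          nlinarith [ht.1, mul_nonneg hx' ht.1]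
        have ht0 := ht.1
        have hpos : 0 < r * (1 + t) := by positivity
        have e : r⁻¹ - (1 + t)⁻¹ = (2 * t * (1 - x.re)) / (r * (1 + t) * (1 + t + r)) := by
          have h4 : (1 + t) ≠ 0 := by positivity
          have h5 : r ≠ 0 := by positivity
          have h6 : (1 + t + r) ≠ 0 := by positivity
          field_simp
          nlinarith [hr2]
        have hden : (1 + t) * (2 + t) ≤ r * (1 + t) * (1 + t + r) := by
          have e1 : 1 * (1 + t) ≤ r * (1 + t) := mul_le_mul_of_nonneg_right hr1 (by linarith)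
          have e2 : (2 + t) ≤ (1 + t + r) := by linarith
          calc (1 + t) * (2 + t) ≤ (r * (1 + t)) * (1 + t + r) :=
                mul_le_mul (by linarith) e2 (by linarith) (by positivity)
            _ = _ := by ring
        have h7 : (2 * t * (1 - x.re)) / (r * (1 + t) * (1 + t + r)) ≤
            (2 * t * (1 - x.re)) / ((1 + t) * (2 + t)) := by
          apply div_le_div_of_nonneg_left _ (by positivity) hden
          have : 0 ≤ 1 - x.re := by linarith
          positivity
        have h8 : (2 * t * (1 - x.re)) / ((1 + t) * (2 + t)) ≤ (1 - x.re) / 3 := by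
          rw [div_le_div_iff₀ (by positivity) (by norm_num)]
          have : 0 ≤ 1 - x.re := by linarith
          nlinarith [mul_nonneg this (mul_nonneg (by linarith [ht.2] : 0 ≤ 1 - t)
            (by linarith [ht.2] : 0 ≤ 2 - t))]
        linarith
      have := mul_le_mul_of_nonneg_left hkey (w_nonneg (b := b) (n := n) ht)
      linarith
  · exact intInt (ContinuousOn.mul (by fun_prop) inv_cont)
  · exact (by fun_prop : Continuous _).intervalIntegrable _ _

end Pool.Agent.X304.Brannan
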