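import Mathlib
import Pool.Agent.X304.Brannan.Mid

set_option autoImplicit false

open MeasureTheory Set Filter Topology

namespace Pool.Agent.X304.Brannan

variable {b : ℝ}

/-- `‖(1+x) G‖ = 2^α q^(α/2)` with `q = (1+c)/2` -/
theorem norm_main (h0 : 0 < b) (h1 : b < 1) {x : ℂ} (hx : ‖x‖ = 1) (hx' : -1 < x.re) :
    ‖(1 + x) * G b x‖ = 2 ^ (1 + b) * ((1 + x.re) / 2) ^ ((1 + b) / 2) := by
  have hne : (1 + x) ≠ 0 := by
    have := ne_zero_bdry hx hx' 1 (by simp)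
    simpa using this
  have e : (1 + x) * G b x = (1 + x) ^ (((1 + b : ℝ)) : ℂ) := by
    rw [G_eq h0 h1 hx hx']
    push_cast
    rw [Complex.cpow_add _ _ hne, Complex.cpow_one]
  rw [e, norm_one_add_cpow hx hx']
  have h2 : (2 : ℝ) ^ (1 + b) = (4 : ℝ) ^ ((1 + b) / 2) := by
    rw [show (4 : ℝ) = (2 : ℝ) ^ (2 : ℝ) by norm_num, ← Real.rpow_mul (by norm_num)]
    congr 1; ring
  rw [h2, ← Real.mul_rpow (by norm_num) (by linarith)]
  congr 1
  ring

theorem two_le (h0 : 0 < b) : (2 : ℝ) ≤ 2 ^ (1 + b) := by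
  have := Real.rpow_le_rpow_of_exponent_le (x := (2 : ℝ)) (by norm_num) (show (1 : ℝ) ≤ 1 + b by linarith)
  simpa using this

theorem two_add_le (h0 : 0 < b) : 2 + b ≤ (2 : ℝ) ^ (1 + b) := by
  rw [Real.rpow_add (by norm_num), Real.rpow_one]
  have h : 1 + b / 2 ≤ (2 : ℝ) ^ b := by
    have h2 : (2 : ℝ) ^ b = Real.exp (Real.log 2 * b) := by
      rw [Real.rpow_def_of_pos (by norm_num)]
    rw [h2]
    have := Real.add_one_le_exp (Real.log 2 * b)
    have h3 := Real.log_two_gt_d9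
    nlinarith
  linarith

/-- `q^(α/2) ≤ (1+q)/2` -/
theorem q_le (h0 : 0 < b) {q : ℝ} (hq : 0 < q) (hq1 : q ≤ 1) : q ^ ((1 + b) / 2) ≤ (1 + q) / 2 := by
  have h1 : q ^ ((1 + b) / 2) ≤ q ^ (1 / 2 : ℝ) :=
    Real.rpow_le_rpow_of_exponent_ge hq hq1 (by linarith)
  rw [← Real.sqrt_eq_rpow] at h1
  have h2 : Real.sqrt q ≤ (1 + q) / 2 := by
    have h3 := Real.sq_sqrt hq.le
    nlinarith [sq_nonneg (Real.sqrt q - 1)]
  linarith

theorem q_le_half (h0 : 0 < b) {q : ℝ} (hq : 0 < q) (hq1 : q ≤ 1 / 2) :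
    q ^ ((1 + b) / 2) ≤ 3 / 4 := by
  have h1 : q ^ ((1 + b) / 2) ≤ q ^ (1 / 2 : ℝ) :=
    Real.rpow_le_rpow_of_exponent_ge hq (by linarith) (by linarith)
  rw [← Real.sqrt_eq_rpow] at h1
  have h2 : Real.sqrt q ≤ 3 / 4 := by
    rw [Real.sqrt_le_left (by norm_num)]
    linarith
  linarith

theorem E_le (h0 : 0 < b) (h1 : b < 1) : b - b ^ 3 ≤ 1 / 2 := by
  nlinarith [sq_nonneg (b - 1 / 2), sq_nonneg b, mul_pos h0 (mul_pos h0 h0)]

theorem E_nonneg (h0 : 0 < b) (h1 : b < 1) : 0 ≤ b - b ^ 3 := by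
  have : b - b ^ 3 = b * (1 - b) * (1 + b) := by ring
  rw [this]
  have : 0 < 1 - b := by linarith
  positivity

theorem cA_le' (h0 : 0 < b) (h1 : b < 1) (n : ℕ) : cst b * Am b n ≤ 1 / 12 := by
  refine (cA_le h0 h1 n).trans ?_
  have hn : (0 : ℝ) ≤ n := by positivity
  rw [div_le_iff₀ (by positivity)]
  nlinarith [E_le h0 h1]

theorem cM_le' (h0 : 0 < b) (h1 : b < 1) (n : ℕ) : cst b * M b n ≤ 1 / 8 := by
  refine (cM_le h0 h1 n).trans ?_
  have hn : (0 : ℝ) ≤ n := by positivity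
  rw [div_le_iff₀ (by positivity)]
  nlinarith [sq_nonneg (b - 1 / 2)]

theorem mid_even (h0 : 0 < b) (h1 : b < 1) {n : ℕ} (hn : Even n) {x : ℂ} (hx : ‖x‖ = 1)
    (hx' : -1 < x.re) : ‖S (1 + b) (n + 2) x‖ ≤ Sr (1 + b) (n + 2) := by
  have hcp := cst_pos h0 h1
  rw [S_mid h0 h1 (ne_zero_bdry hx hx') n, Sr_mid h0 h1, hn.neg_one_pow, hn.neg_one_pow]
  refine (norm_add_le _ _).trans ?_
  rw [norm_main h0 h1 hx hx', norm_mul, norm_mul, norm_mul, norm_one, norm_pow, hx, one_pow,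
    Complex.norm_real, Real.norm_eq_abs, abs_of_pos hcp]
  have hP := two_le h0
  have hKr := mul_nonneg hcp.le (Kr_nonneg h0 h1 n)
  rcases le_total 0 x.re with hc | hc
  · have hK := mul_le_mul_of_nonneg_left (norm_K_le_Kr h0 h1 hx hc n) hcp.le
    have hq := q_le h0 (q := (1 + x.re) / 2) (by linarith) (by linarith [re_le hx])
    have hA := cA_le' h0 h1 n
    have hu : 0 ≤ 1 - x.re := by linarith [re_le hx]
    have h3 : cst b * ((1 - x.re) / 3 * Am b n) ≤ (1 - x.re) / 36 := by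
      have := mul_le_mul_of_nonneg_left hA (by positivity : 0 ≤ (1 - x.re) / 3)
      linarith
    have h4 : 2 ^ (1 + b) * ((1 + x.re) / 2) ^ ((1 + b) / 2) ≤
        (2 : ℝ) ^ (1 + b) * ((1 + (1 + x.re) / 2) / 2) :=
      mul_le_mul_of_nonneg_left hq (by positivity)
    have h5 : (1 - x.re) / 2 ≤ 2 ^ (1 + b) * ((1 - x.re) / 4) := by
      have := mul_le_mul_of_nonneg_right hP (by positivity : 0 ≤ (1 - x.re) / 4)
      linarith
    nlinarith
  · have hK := mul_le_mul_of_nonneg_left (norm_K_le_M h0 h1 hx hx' n) hcp.le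
    have hq := q_le_half h0 (q := (1 + x.re) / 2) (by linarith) (by linarith)
    have hM := cM_le' h0 h1 n
    have h4 : 2 ^ (1 + b) * ((1 + x.re) / 2) ^ ((1 + b) / 2) ≤ (2 : ℝ) ^ (1 + b) * (3 / 4) :=
      mul_le_mul_of_nonneg_left hq (by positivity)
    nlinarith

/-- `|sin (l y)| ≤ l sin y` -/
theorem sin_mul_le {l y : ℝ} (hl : 1 ≤ l) (hy0 : 0 ≤ y) (hy : y ≤ Real.pi / 2) :
    |Real.sin (l * y)| ≤ l * Real.sin y := by
  have hly : 0 ≤ l * y := by positivity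
  rcases le_total (l * y) (Real.pi / 2) with h | h
  · have hs : 0 ≤ Real.sin (l * y) := Real.sin_nonneg_of_nonneg_of_le_pi hly (by linarith [Real.pi_pos])
    rw [abs_of_nonneg hs]
    have hconc := strictConcaveOn_sin_Icc.concaveOn
    have hli : 0 ≤ 1 - l⁻¹ := by
      have : l⁻¹ ≤ 1 := inv_le_one_of_one_le₀ hl
      linarith
    have hli2 : 0 ≤ l⁻¹ := by positivity
    have := hconc.2 (show (0 : ℝ) ∈ Icc 0 Real.pi from ⟨le_rfl, Real.pi_pos.le⟩)
      (show l * y ∈ Icc 0 Real.pi from ⟨hly, by linarith [Real.pi_pos]⟩) hli hli2 (by ring)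
    simp only [smul_eq_mul, mul_zero, Real.sin_zero, zero_add] at this
    have hlpos : (0 : ℝ) < l := by linarith
    rw [← mul_assoc, inv_mul_cancel₀ hlpos.ne', one_mul] at this
    calc Real.sin (l * y) = l * (l⁻¹ * Real.sin (l * y)) := by field_simp
      _ ≤ l * Real.sin y := mul_le_mul_of_nonneg_left this hlpos.le
  · have h1 := Real.mul_le_sin hy0 hy
    have h2 : 1 ≤ l * Real.sin y := by
      have h3 : l * (2 / Real.pi * y) ≤ l * Real.sin y :=
        mul_le_mul_of_nonneg_left h1 (by linarith)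
      have h4 : 1 ≤ l * (2 / Real.pi * y) := by
        have : l * (2 / Real.pi * y) = 2 / Real.pi * (l * y) := by ring
        rw [this]
        calc (1 : ℝ) = 2 / Real.pi * (Real.pi / 2) := by field_simp
          _ ≤ _ := mul_le_mul_of_nonneg_left h (by positivity)
      linarith
    exact (Real.abs_sin_le_one _).trans h2

theorem one_sub_cos_le {l θ : ℝ} (hl : 1 ≤ l) (hθ : |θ| ≤ Real.pi) :
    1 - Real.cos (l * θ) ≤ l ^ 2 * (1 - Real.cos θ) := by
  have h : ∀ z : ℝ, 1 - Real.cos z = 2 * Real.sin (z / 2) ^ 2 := by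
    intro z
    have := Real.cos_sq (z / 2)
    have h2 := Real.sin_sq_add_cos_sq (z / 2)
    rw [show 2 * (z / 2) = z by ring] at this
    linarith
  rw [h, h]
  have hy0 : 0 ≤ |θ| / 2 := by positivity
  have hs := sin_mul_le hl hy0 (by linarith)
  have e1 : Real.sin (l * θ / 2) ^ 2 = |Real.sin (l * (|θ| / 2))| ^ 2 := by
    rw [sq_abs]
    rcases le_total 0 θ with h | h
    · rw [abs_of_nonneg h]; congr 2; ring
    · rw [abs_of_nonpos h, show l * (-θ / 2) = -(l * θ / 2) by ring, Real.sin_neg, neg_sq]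
  have e2 : Real.sin (θ / 2) ^ 2 = Real.sin (|θ| / 2) ^ 2 := by
    rcases le_total 0 θ with h | h
    · rw [abs_of_nonneg h]
    · rw [abs_of_nonpos h, show -θ / 2 = -(θ / 2) by ring, Real.sin_neg, neg_sq]
  rw [e1, e2]
  have h3 : |Real.sin (l * (|θ| / 2))| ^ 2 ≤ (l * Real.sin (|θ| / 2)) ^ 2 :=
    pow_le_pow_left₀ (abs_nonneg _) hs 2
  nlinarith

end Pool.Agent.X304.Brannan
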