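import Mathlib
import Pool.Agent.X304.Brannan.Cases

set_option autoImplicit false

open MeasureTheory Set Filter Topology

namespace Pool.Agent.X304.Brannan

variable {b : ℝ}

theorem one_add_exp_cpow {θ : ℝ} (h1 : -Real.pi < θ) (h2 : θ < Real.pi) (a : ℝ) :
    (1 + Complex.exp (θ * Complex.I)) ^ (a : ℂ) =
      (((2 * Real.cos (θ / 2)) ^ a : ℝ) : ℂ) * Complex.exp ((a * θ / 2 : ℝ) * Complex.I) := by
  have hc : 0 < Real.cos (θ / 2) := Real.cos_pos_of_mem_Ioo ⟨by linarith, by linarith⟩
  have hr : 0 < 2 * Real.cos (θ / 2) := by positivity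
  have e : 1 + Complex.exp (θ * Complex.I) =
      ((2 * Real.cos (θ / 2) : ℝ) : ℂ) * Complex.exp ((θ / 2 : ℝ) * Complex.I) := by
    have h3 : Complex.exp (θ * Complex.I) =
        Complex.exp ((θ / 2 : ℝ) * Complex.I) * Complex.exp ((θ / 2 : ℝ) * Complex.I) := by
      rw [← Complex.exp_add]; congr 1; push_cast; ring
    have h4 : (1 : ℂ) = Complex.exp ((θ / 2 : ℝ) * Complex.I) * Complex.exp (-((θ / 2 : ℝ) * Complex.I)) := by
      rw [← Complex.exp_add, add_neg_cancel, Complex.exp_zero]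
    have h5 : ((2 * Real.cos (θ / 2) : ℝ) : ℂ) =
        Complex.exp ((θ / 2 : ℝ) * Complex.I) + Complex.exp (-((θ / 2 : ℝ) * Complex.I)) := by
      push_cast
      rw [Complex.two_cos]
      ring_nf
    rw [h5, h3]
    conv_lhs => rw [h4]
    ring
  have hexp : Complex.exp ((θ / 2 : ℝ) * Complex.I) ≠ 0 := Complex.exp_ne_zero _
  have hne : 1 + Complex.exp (θ * Complex.I) ≠ 0 := by
    rw [e]
    exact mul_ne_zero (by exact_mod_cast hr.ne') hexp
  rw [Complex.cpow_def_of_ne_zero hne, e, Complex.log_ofReal_mul hr hexp, Complex.log_exp]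
  · rw [Real.rpow_def_of_pos hr, Complex.ofReal_exp, ← Complex.exp_add]
    congr 1
    push_cast
    ring
  · simp; linarith
  · simp; linarith

theorem re_K_ge (h0 : 0 < b) (h1 : b < 1) {θ γ L : ℝ} (hc : 0 ≤ Real.cos θ)
    (hL1 : 1 - Real.cos γ ≤ L) (hL2 : 1 - Real.cos (γ - θ) ≤ L) (n : ℕ) :
    Kr b n - 5 / 4 * L * Am b n ≤
      (Complex.exp (γ * Complex.I) * K b n (Complex.exp (θ * Complex.I))).re := by
  have hgc := g_continuous h0 h1
  set x := Complex.exp (θ * Complex.I) with hxdef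
  have hx : ‖x‖ = 1 := Complex.norm_exp_ofReal_mul_I θ
  have hre : x.re = Real.cos θ := Complex.exp_ofReal_mul_I_re θ
  have him : x.im = Real.sin θ := Complex.exp_ofReal_mul_I_im θ
  have hx' : -1 < x.re := by rw [hre]; linarith
  have hne := ne_zero_bdry hx hx'
  have hL : 0 ≤ L := le_trans (by linarith [Real.cos_le_one γ]) hL1
  have e1 : (Complex.exp (γ * Complex.I) * K b n x).re = ∫ t in (0 : ℝ)..1,
      (Complex.exp (γ * Complex.I) * (((t ^ n * (1 - t) * g b t : ℝ) : ℂ) * (1 + x * t)⁻¹)).re := by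
    unfold K
    rw [← intervalIntegral.integral_const_mul]
    have := Complex.reCLM.intervalIntegral_comp_comm
      ((K_integrable h0 h1 hne n).const_mul (Complex.exp (γ * Complex.I)))
    simpa using this.symm
  rw [e1]
  unfold Kr Am
  rw [← intervalIntegral.integral_const_mul, ← intervalIntegral.integral_sub]
  · apply intervalIntegral.integral_mono_on zero_le_one
    · apply IntervalIntegrable.sub
      · exact intInt (ContinuousOn.mul (by fun_prop) inv_cont)
      · exact (by fun_prop : Continuous _).intervalIntegrable _ _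
    · have := (K_integrable h0 h1 hne n).const_mul (Complex.exp (γ * Complex.I))
      exact ⟨Complex.reCLM.integrable_comp this.1, Complex.reCLM.integrable_comp this.2⟩
    · intro t ht
      have hw := w_nonneg (b := b) (n := n) ht
      set w : ℝ := t ^ n * (1 - t) * g b t with hwdef
      have hQ := Qpos hx' ht.1
      have hns : Complex.normSq (1 + x * (t : ℂ)) = Q x.re t := by
        rw [← Complex.sq_norm, sq_norm_one_add hx]; rfl
      have e2 : (Complex.exp (γ * Complex.I) * ((w : ℂ) * (1 + x * t)⁻¹)).re =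
          w * ((Real.cos γ + t * Real.cos (γ - θ)) / Q x.re t) := by
        have e3 : Complex.exp (γ * Complex.I) * ((w : ℂ) * (1 + x * t)⁻¹) =
            (w : ℂ) * (Complex.exp (γ * Complex.I) * (1 + x * t)⁻¹) := by ring
        rw [e3, Complex.re_ofReal_mul, Complex.mul_re, Complex.exp_ofReal_mul_I_re,
          Complex.exp_ofReal_mul_I_im, Complex.inv_re, Complex.inv_im, hns, Real.cos_sub]
        have e4 : (1 + x * (t : ℂ)).re = 1 + Real.cos θ * t := by simp [hre]
        have e5 : (1 + x * (t : ℂ)).im = Real.sin θ * t := by simp [him]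
        rw [e4, e5]
        field_simp
        ring
      rw [e2]
      have hkey : (1 + t)⁻¹ - 5 / 4 * L ≤ (Real.cos γ + t * Real.cos (γ - θ)) / Q x.re t := by
        have hQ1 : 1 + t ^ 2 ≤ Q x.re t := by
          have : 0 ≤ x.re * t := mul_nonneg (by rw [hre]; exact hc) ht.1
          unfold Q
          linarith
        have hQ2 : Q x.re t ≤ (1 + t) ^ 2 := by
          unfold Q
          nlinarith [ht.1, re_le hx, mul_nonneg (by linarith [re_le hx] : 0 ≤ 1 - x.re) ht.1]
        have ht0 := ht.1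
        have h1t : 0 < 1 + t := by linarith
        have hnum : (1 + t) - (1 + t) * L ≤ Real.cos γ + t * Real.cos (γ - θ) := by
          nlinarith
        rw [le_div_iff₀ hQ]
        have e6 : (1 + t)⁻¹ * Q x.re t ≤ 1 + t := by
          rw [inv_mul_le_iff₀ h1t]
          nlinarith
        have e7 : (1 + t) * L ≤ 5 / 4 * L * Q x.re t := by
          have : (1 + t) ≤ 5 / 4 * Q x.re t := by nlinarith [sq_nonneg (t - 2 / 5)]
          have := mul_le_mul_of_nonneg_left this hL
          linarith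
        nlinarith
      have := mul_le_mul_of_nonneg_left hkey hw
      linarith
  · exact intInt (ContinuousOn.mul (by fun_prop) inv_cont)
  · exact (by fun_prop : Continuous _).intervalIntegrable _ _

theorem final_ineq {P p k1 A u l zr zn : ℝ} (hP : 2 ≤ P) (hp0 : 0 ≤ p) (hple : p ≤ P)
    (hk10 : 0 ≤ k1) (hk1A : k1 ≤ A) (hA12 : A ≤ 1 / 12) (hu0 : 0 ≤ u) (hu1 : u ≤ 1) (hl : 0 ≤ l)
    (h1 : p ^ 2 ≤ P ^ 2 * (1 - u / 2)) (h2 : P * (1 - u / 2) ≤ p)
    (hz : k1 - 5 / 4 * (l * u) * A ≤ zr) (hzn : zn ≤ k1 + u / 3 * A) (hzn0 : 0 ≤ zn)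
    (hmain : A * (7 / 6 + 5 / 2 * l) ≤ P / 2) :
    p ^ 2 - 2 * p * zr + zn ^ 2 ≤ (P - k1) ^ 2 := by
  have hA0 : 0 ≤ A := hk10.trans hk1A
  have hP0 : 0 ≤ P := by linarith
  have e2 : zn ^ 2 ≤ (k1 + u / 3 * A) ^ 2 := pow_le_pow_left₀ hzn0 hzn 2
  have e3 : p * (k1 - 5 / 4 * (l * u) * A) ≤ p * zr := mul_le_mul_of_nonneg_left hz hp0
  have e4 : p * (l * u * A) ≤ P * (l * u * A) := mul_le_mul_of_nonneg_right hple (by positivity)
  have e5 : k1 * (P - p) ≤ k1 * (P * (u / 2)) :=
    mul_le_mul_of_nonneg_left (by linarith) hk10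
  have e7 : k1 * (P * u) ≤ A * (P * u) := mul_le_mul_of_nonneg_right hk1A (by positivity)
  have huA : 0 ≤ u * A := by positivity
  have e8 : k1 * (u * A) ≤ (1 / 12) * (u * A) := mul_le_mul_of_nonneg_right (by linarith) huA
  have e8' : 2 * (u * A) ≤ P * (u * A) := mul_le_mul_of_nonneg_right hP huA
  have e9' : u * A ≤ 1 * (1 / 12) := mul_le_mul hu1 hA12 hA0 zero_le_one
  have e9 : (u * A) * (u * A) ≤ (1 * (1 / 12)) * (u * A) := mul_le_mul_of_nonneg_right e9' huA
  have e10 : 0 ≤ (P * u) * (P / 2 - A * (7 / 6 + 5 / 2 * l)) :=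
    mul_nonneg (by positivity) (by linarith)
  nlinarith [e2, e3, e4, e5, e7, e8, e8', e9, e10, h1]

theorem mid_odd (h0 : 0 < b) (h1 : b < 1) {n : ℕ} (hn : Odd n) {θ : ℝ} (ht1 : -Real.pi < θ)
    (ht2 : θ < Real.pi) :
    ‖S (1 + b) (n + 2) (Complex.exp (θ * Complex.I))‖ ≤ Sr (1 + b) (n + 2) := by
  have hcp := cst_pos h0 h1
  set x := Complex.exp (θ * Complex.I) with hxdef
  have hx : ‖x‖ = 1 := Complex.norm_exp_ofReal_mul_I θ
  have hre : x.re = Real.cos θ := Complex.exp_ofReal_mul_I_re θ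
  have hcosgt : -1 < Real.cos θ := by
    have h3 : 0 < Real.cos (θ / 2) := Real.cos_pos_of_mem_Ioo ⟨by linarith, by linarith⟩
    have h4 := Real.cos_sq (θ / 2)
    rw [show 2 * (θ / 2) = θ by ring] at h4
    nlinarith
  have hx' : -1 < x.re := by rw [hre]; exact hcosgt
  have hP := two_le h0
  have hKr0 := mul_nonneg hcp.le (Kr_nonneg h0 h1 n)
  have hKrA := mul_le_mul_of_nonneg_left (Kr_le h0 h1 n) hcp.le
  have hA12 := cA_le' h0 h1 n
  rw [S_mid h0 h1 (ne_zero_bdry hx hx') n, Sr_mid h0 h1, hn.neg_one_pow, hn.neg_one_pow]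
  rcases le_total x.re 0 with hc | hc
  · refine (norm_add_le _ _).trans ?_
    rw [norm_main h0 h1 hx hx', norm_mul, norm_mul, norm_mul, norm_neg, norm_one, norm_pow, hx,
      one_pow, Complex.norm_real, Real.norm_eq_abs, abs_of_pos hcp]
    have hK := mul_le_mul_of_nonneg_left (norm_K_le_M h0 h1 hx hx' n) hcp.le
    have hq := q_le_half h0 (q := (1 + x.re) / 2) (by linarith) (by linarith)
    have hM := cM_le' h0 h1 n
    have h4 : 2 ^ (1 + b) * ((1 + x.re) / 2) ^ ((1 + b) / 2) ≤ (2 : ℝ) ^ (1 + b) * (3 / 4) :=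
      mul_le_mul_of_nonneg_left hq (by positivity)
    nlinarith
  · -- the delicate case
    set P : ℝ := 2 ^ (1 + b) with hPdef
    set q : ℝ := (1 + x.re) / 2 with hqdef
    set u : ℝ := 1 - x.re with hudef
    have hqu : q = 1 - u / 2 := by rw [hqdef, hudef]; ring
    have hu0 : 0 ≤ u := by rw [hudef]; linarith [re_le hx]
    have hu1 : u ≤ 1 := by rw [hudef]; linarith
    have hq0 : 0 < q := by rw [hqdef]; linarith
    have hq1 : q ≤ 1 := by linarith
    set p : ℝ := P * q ^ ((1 + b) / 2) with hpdef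
    have hnorm : ‖(1 + x) * G b x‖ = p := norm_main h0 h1 hx hx'
    -- polar form
    have hpolar : (1 + x) * G b x = (p : ℂ) * Complex.exp (((1 + b) * θ / 2 : ℝ) * Complex.I) := by
      have e : (1 + x) * G b x = (1 + x) ^ (((1 + b : ℝ)) : ℂ) := by
        have hne : (1 + x) ≠ 0 := by
          have := ne_zero_bdry hx hx' 1 (by simp)
          simpa using this
        rw [G_eq h0 h1 hx hx']
        push_cast
        rw [Complex.cpow_add _ _ hne, Complex.cpow_one]
      rw [e, hxdef, one_add_exp_cpow ht1 ht2]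
      have hcz : 0 < Real.cos (θ / 2) := Real.cos_pos_of_mem_Ioo ⟨by linarith, by linarith⟩
      have hpp : (2 * Real.cos (θ / 2)) ^ (1 + b) = p := by
        rw [← hnorm, e, hxdef, one_add_exp_cpow ht1 ht2, norm_mul, Complex.norm_exp_ofReal_mul_I,
          mul_one, Complex.norm_real, Real.norm_eq_abs, abs_of_nonneg (by positivity)]
      rw [hpp]
    set γ : ℝ := (n + 3) * θ - (1 + b) * θ / 2 with hγ
    set z : ℂ := (cst b : ℂ) * (Complex.exp (γ * Complex.I) * K b n x) with hzdef
    have hrot : (1 + x) * G b x + -1 * (cst b : ℂ) * x ^ (n + 3) * K b n x =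
        Complex.exp (((1 + b) * θ / 2 : ℝ) * Complex.I) * ((p : ℂ) - z) := by
      have e1 : x ^ (n + 3) = Complex.exp (((1 + b) * θ / 2 : ℝ) * Complex.I) *
          Complex.exp (γ * Complex.I) := by
        rw [hxdef, ← Complex.exp_nat_mul, ← Complex.exp_add]
        congr 1
        rw [hγ]
        push_cast
        ring
      rw [hpolar, e1, hzdef]
      ring
    rw [hrot, norm_mul, Complex.norm_exp_ofReal_mul_I, one_mul]
    -- bounds for z
    set lam : ℝ := n + 3 - (1 + b) / 2 with hlam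
    have hn1 : (1 : ℝ) ≤ n := by
      have : 1 ≤ n := by rcases hn with ⟨k, hk⟩; omega
      exact_mod_cast this
    have habs : |θ| ≤ Real.pi := abs_le.2 ⟨by linarith, by linarith⟩
    have hL1 : 1 - Real.cos γ ≤ lam ^ 2 * u := by
      have := one_sub_cos_le (l := lam) (θ := θ) (by rw [hlam]; linarith) habs
      rw [hudef, hre]
      rwa [show lam * θ = γ by rw [hlam, hγ]; ring] at this
    have hL2 : 1 - Real.cos (γ - θ) ≤ lam ^ 2 * u := by
      have := one_sub_cos_le (l := lam - 1) (θ := θ) (by rw [hlam]; linarith) habs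
      rw [show (lam - 1) * θ = γ - θ by rw [hlam, hγ]; ring] at this
      have h5 : (lam - 1) ^ 2 ≤ lam ^ 2 := by
        have : 1 ≤ lam := by rw [hlam]; linarith
        nlinarith
      have h6 := mul_le_mul_of_nonneg_right h5 hu0
      rw [hudef, hre] at h6 ⊢
      linarith
    have hrez := re_K_ge h0 h1 (θ := θ) (γ := γ) (by rw [← hre]; exact hc) hL1 hL2 n
    rw [← hxdef] at hrez
    set A : ℝ := cst b * Am b n with hAdef
    set k1 : ℝ := cst b * Kr b n with hk1def
    have hzre : k1 - 5 / 4 * (lam ^ 2 * u) * A ≤ z.re := by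
      have h7 := mul_le_mul_of_nonneg_left hrez hcp.le
      rw [hzdef, Complex.re_ofReal_mul]
      rw [hk1def, hAdef]
      linarith
    have hznorm : ‖z‖ ≤ k1 + u / 3 * A := by
      have h7 := mul_le_mul_of_nonneg_left (norm_K_le_Kr h0 h1 hx hc n) hcp.le
      rw [hzdef, norm_mul, norm_mul, Complex.norm_exp_ofReal_mul_I, one_mul, Complex.norm_real,
        Real.norm_eq_abs, abs_of_pos hcp]
      rw [hk1def, hAdef]
      linarith
    -- bounds for p
    have hp0 : 0 ≤ p := by rw [hpdef]; positivity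
    have hpsq : p ^ 2 ≤ P ^ 2 * q := by
      rw [hpdef, mul_pow]
      apply mul_le_mul_of_nonneg_left _ (by positivity)
      rw [← Real.rpow_natCast (q ^ ((1 + b) / 2)) 2, ← Real.rpow_mul hq0.le]
      calc q ^ ((1 + b) / 2 * ((2 : ℕ) : ℝ)) ≤ q ^ (1 : ℝ) := by
            apply Real.rpow_le_rpow_of_exponent_ge hq0 hq1
            push_cast
            linarith
        _ = q := Real.rpow_one q
    have hpge : P * q ≤ p := by
      rw [hpdef]
      apply mul_le_mul_of_nonneg_left _ (by positivity)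
      calc q = q ^ (1 : ℝ) := (Real.rpow_one q).symm
        _ ≤ q ^ ((1 + b) / 2) := Real.rpow_le_rpow_of_exponent_ge hq0 hq1 (by linarith)
    have hple : p ≤ P := by
      rw [hpdef]
      have : q ^ ((1 + b) / 2) ≤ 1 := Real.rpow_le_one hq0.le hq1 (by linarith)
      nlinarith
    have hA0 : 0 ≤ A := by linarith
    have hk10 : 0 ≤ k1 := hKr0
    -- the main numerical inequality
    have hmain : A * (7 / 6 + 5 / 2 * lam ^ 2) ≤ P / 2 := by
      have hD : A ≤ (b - b ^ 3) / ((n + 2) * (n + 3)) := cA_le h0 h1 n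
      have hE := E_nonneg h0 h1
      have hlam2 : lam ^ 2 ≤ (n + 2) * (n + 3) + 1 / 4 := by
        have h8 : 0 ≤ lam := by rw [hlam]; linarith
        have h9 : lam ≤ n + 5 / 2 := by rw [hlam]; linarith
        nlinarith
      have hDpos : (0 : ℝ) < (n + 2) * (n + 3) := by positivity
      have hD12 : (12 : ℝ) ≤ (n + 2) * (n + 3) := by nlinarith
      have h10 : A * (7 / 6 + 5 / 2 * lam ^ 2) ≤
          (b - b ^ 3) / ((n + 2) * (n + 3)) * (53 / 20 * ((n + 2) * (n + 3))) := by
        apply mul_le_mul hD _ (by positivity) (by positivity)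
        nlinarith
      have h11 : (b - b ^ 3) / ((n + 2) * (n + 3)) * (53 / 20 * ((n + 2) * (n + 3))) =
          53 / 20 * (b - b ^ 3) := by field_simp
      rw [h11] at h10
      have h12 := two_add_le h0
      rw [← hPdef] at h12
      have h13 : 53 / 20 * (b - b ^ 3) ≤ 1 + b / 2 := by
        nlinarith [sq_nonneg (b - 1 / 2), mul_nonneg h0.le (sq_nonneg (b - 1 / 2))]
      linarith
    have hPk : 0 ≤ P - k1 := by linarith
    have hgoal : ‖(p : ℂ) - z‖ ^ 2 ≤ (P - k1) ^ 2 := by
      have e1 : ‖(p : ℂ) - z‖ ^ 2 = p ^ 2 - 2 * p * z.re + ‖z‖ ^ 2 := by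
        rw [Complex.sq_norm, Complex.sq_norm, Complex.normSq_apply, Complex.normSq_apply]
        simp
        ring
      rw [e1]
      rw [hqu] at hpsq hpge
      exact final_ineq hP hp0 hple hk10 hKrA hA12 hu0 hu1 (by positivity) hpsq hpge hzre hznorm
        (norm_nonneg _) hmain
    have := abs_le_of_sq_le_sq hgoal hPk
    linarith [le_abs_self ‖(p : ℂ) - z‖, abs_of_nonneg (norm_nonneg ((p : ℂ) - z))]

end Pool.Agent.X304.Brannan
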