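import Mathlib
import Pool.Agent.X304.Brannan.MidOdd

set_option autoImplicit false

open MeasureTheory Set Filter Topology

namespace Pool.Agent.X304.Brannan

theorem S_continuous (a : ℝ) (m : ℕ) : Continuous (S a m) := by
  unfold S
  fun_prop

/-- passing to the closure: the point `x = -1` -/
theorem closure_step {a : ℝ} {m : ℕ} (h : ∀ θ : ℝ, -Real.pi < θ → θ < Real.pi →
    ‖S a m (Complex.exp (θ * Complex.I))‖ ≤ Sr a m) {x : ℂ} (hx : ‖x‖ = 1) :
    ‖S a m x‖ ≤ Sr a m := by
  have hx2 : x = Complex.exp (x.arg * Complex.I) := by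
    have := Complex.norm_mul_exp_arg_mul_I x
    rw [hx] at this
    simpa using this.symm
  rw [hx2]
  have h1 := Complex.neg_pi_lt_arg x
  have h2 := Complex.arg_le_pi x
  rcases h2.lt_or_eq with h3 | h3
  · exact h _ h1 h3
  · rw [h3]
    have hcont : Continuous fun θ : ℝ => ‖S a m (Complex.exp (θ * Complex.I))‖ :=
      ((S_continuous a m).comp (by fun_prop)).norm
    have ht : Tendsto (fun θ : ℝ => ‖S a m (Complex.exp (θ * Complex.I))‖) (𝓝[<] Real.pi)
        (𝓝 ‖S a m (Complex.exp ((Real.pi : ℝ) * Complex.I))‖) :=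
      (hcont.tendsto Real.pi).mono_left nhdsWithin_le_nhds
    refine le_of_tendsto ht ?_
    filter_upwards [Ioo_mem_nhdsLT (show (0 : ℝ) < Real.pi from Real.pi_pos)] with θ hθ
    exact h θ (by linarith [hθ.1, Real.pi_pos]) hθ.2

theorem re_gt {θ : ℝ} (ht1 : -Real.pi < θ) (ht2 : θ < Real.pi) :
    -1 < (Complex.exp (θ * Complex.I)).re := by
  rw [Complex.exp_ofReal_mul_I_re]
  have h3 : 0 < Real.cos (θ / 2) := Real.cos_pos_of_mem_Ioo ⟨by linarith, by linarith⟩
  have h4 := Real.cos_sq (θ / 2)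
  rw [show 2 * (θ / 2) = θ by ring] at h4
  nlinarith

/-- nonnegative coefficients: triangle inequality -/
theorem nonneg_case {a : ℝ} {m : ℕ} (h : ∀ k ≤ m, 0 ≤ bin a k) {x : ℂ} (hx : ‖x‖ = 1) :
    ‖S a m x‖ ≤ Sr a m := by
  unfold S Sr
  refine (norm_sum_le _ _).trans ?_
  apply Finset.sum_le_sum
  intro k hk
  rw [norm_mul, norm_pow, hx, one_pow, mul_one, Complex.norm_real, Real.norm_eq_abs,
    abs_of_nonneg (h k (by simpa [Nat.lt_succ_iff] using hk))]

theorem bin_one_eq (k : ℕ) : 0 ≤ bin 1 k := by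
  rcases k with _ | _ | k
  · rw [bin_zero]; norm_num
  · rw [bin_one]; norm_num
  · have : bin 1 (k + 2) = 0 := by
      unfold bin
      rw [Finset.prod_eq_zero (i := 1) (by simp) (by norm_num)]
      simp
    rw [this]

/-- exponents in `[1,2)`, all partial sums -/
theorem base_case {a : ℝ} (ha1 : 1 ≤ a) (ha2 : a < 2) (m : ℕ) {x : ℂ} (hx : ‖x‖ = 1) :
    ‖S a m x‖ ≤ Sr a m := by
  rcases ha1.lt_or_eq with h | h
  · obtain ⟨b, rfl⟩ : ∃ b, a = 1 + b := ⟨a - 1, by ring⟩
    have h0 : 0 < b := by linarith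
    have h1 : b < 1 := by linarith
    rcases m with _ | _ | n
    · apply nonneg_case _ hx
      intro k hk
      interval_cases k
      rw [bin_zero]; norm_num
    · apply nonneg_case _ hx
      intro k hk
      interval_cases k
      · rw [bin_zero]; norm_num
      · rw [bin_one]; linarith
    · apply closure_step _ hx
      intro θ ht1 ht2
      rcases Nat.even_or_odd n with hn | hn
      · exact mid_even h0 h1 hn (Complex.norm_exp_ofReal_mul_I θ) (re_gt ht1 ht2)
      · exact mid_odd h0 h1 hn ht1 ht2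
  · subst h
    exact nonneg_case (fun k _ => bin_one_eq k) hx

theorem ge_one {a : ℝ} (ha1 : 1 ≤ a) (m : ℕ) {x : ℂ} (hx : ‖x‖ = 1) : ‖S a m x‖ ≤ Sr a m := by
  have key : ∀ N : ℕ, ∀ a : ℝ, (N : ℝ) + 1 ≤ a → a < N + 2 → ∀ m : ℕ, ‖S a m x‖ ≤ Sr a m := by
    intro N
    induction N with
    | zero =>
      intro a h1 h2 m
      exact base_case (by simpa using h1) (by simpa using h2) m hx
    | succ N ih =>
      intro a h1 h2 m
      push_cast at h1 h2
      obtain ⟨a', rfl⟩ : ∃ a', a = 1 + a' := ⟨a - 1, by ring⟩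
      have hih := ih a' (by linarith) (by linarith)
      rcases m with _ | m
      · apply nonneg_case _ hx
        intro k hk
        interval_cases k
        rw [bin_zero]; norm_num
      · rw [S_pascal, Sr_pascal]
        refine (norm_add_le _ _).trans ?_
        rw [norm_mul, hx, one_mul]
        exact add_le_add (hih _) (hih _)
  have hfl := Nat.floor_le (show 0 ≤ a - 1 by linarith)
  have hfl2 := Nat.lt_floor_add_one (a - 1)
  exact key ⌊a - 1⌋₊ a (by linarith) (by linarith) m

theorem brannan {a : ℝ} (ha : 0 < a) {m : ℕ} (hm : Odd m) {x : ℂ} (hx : ‖x‖ = 1) :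
    ‖S a m x‖ ≤ Sr a m := by
  rcases lt_or_ge a 1 with h | h
  · obtain ⟨k, rfl⟩ := hm
    apply closure_step _ hx
    intro θ ht1 ht2
    exact odd_lt_one ha h (even_two_mul k) (Complex.norm_exp_ofReal_mul_I θ) (re_gt ht1 ht2)
  · exact ge_one h m hx

end Pool.Agent.X304.Brannan
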